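import Pool.Agent.H77.QS.Cst

/-! # QS.Cmp : comparison of coefficients in the fundamental identity -/

namespace H77.QS

open MvPolynomial

section
variable {F : Type} [Field F] [CharZero F]

theorem cubic2 {a0 a1 a2 a3 a4 : F} (h : ∀ X : F, a0 + a1 * X + a2 * X ^ 2 + a3 * X ^ 3 + a4 * X ^ 4 = 0) :
    a0 = 0 ∧ a1 = 0 ∧ a2 = 0 ∧ a3 = 0 ∧ a4 = 0 := by
  have h0 := h 0
  have h1 := h 1
  have h2 := h (-1)
  have h3 := h 2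
  have h4 := h (-2)
  have e0 : a0 = 0 := by linear_combination h0
  have e4 : a4 = 0 := by linear_combination (1 / 24 : F) * (h3 + h4) - (1 / 6 : F) * (h1 + h2) + (1 / 4 : F) * h0
  have e2 : a2 = 0 := by linear_combination (1 / 2 : F) * (h1 + h2) - h0 - e4
  have e3 : a3 = 0 := by linear_combination (1 / 12 : F) * (h3 - h4) - (1 / 6 : F) * (h1 - h2)
  have e1 : a1 = 0 := by linear_combination (1 / 2 : F) * (h1 - h2) - e3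
  exact ⟨e0, e1, e2, e3, e4⟩

/-- a ternary quartic which vanishes identically has zero coefficients -/
theorem quart3 {a0 a1 a2 a3 a4 a5 a6 a7 a8 a9 a10 a11 a12 a13 a14 : F}
    (h : ∀ X Y Z : F, a0 * X ^ 4 + a1 * Y ^ 4 + a2 * Z ^ 4 + a3 * X ^ 3 * Y + a4 * X ^ 2 * Y ^ 2 + a5 * X * Y ^ 3 +
      a6 * X ^ 3 * Z + a7 * X ^ 2 * Z ^ 2 + a8 * X * Z ^ 3 + a9 * Y ^ 3 * Z + a10 * Y ^ 2 * Z ^ 2 + a11 * Y * Z ^ 3 +
      a12 * X ^ 2 * Y * Z + a13 * X * Y ^ 2 * Z + a14 * X * Y * Z ^ 2 = 0) :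
    (a0 = 0 ∧ a1 = 0 ∧ a2 = 0 ∧ a3 = 0 ∧ a4 = 0) ∧ (a5 = 0 ∧ a6 = 0 ∧ a7 = 0 ∧ a8 = 0 ∧ a9 = 0) ∧
      (a10 = 0 ∧ a11 = 0 ∧ a12 = 0 ∧ a13 = 0 ∧ a14 = 0) := by
  have hXY : ∀ X Y : F, a0 * X ^ 4 + a3 * X ^ 3 * Y + a4 * X ^ 2 * Y ^ 2 + a5 * X * Y ^ 3 + a1 * Y ^ 4 = 0 ∧
      (a6 * X ^ 3 + a12 * X ^ 2 * Y + a13 * X * Y ^ 2 + a9 * Y ^ 3) = 0 ∧ (a7 * X ^ 2 + a14 * X * Y + a10 * Y ^ 2) = 0 ∧
      (a8 * X + a11 * Y) = 0 ∧ a2 = 0 := by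
    intro X Y
    exact cubic2 (fun Z => by linear_combination h X Y Z)
  have h1 := cubic2 (a0 := a1) (a1 := a5) (a2 := a4) (a3 := a3) (a4 := a0) (fun X => by linear_combination (hXY X 1).1)
  have h2 := cubic2 (a0 := a9) (a1 := a13) (a2 := a12) (a3 := a6) (a4 := 0) (fun X => by linear_combination (hXY X 1).2.1)
  have h3 := cubic2 (a0 := a10) (a1 := a14) (a2 := a7) (a3 := 0) (a4 := 0) (fun X => by linear_combination (hXY X 1).2.2.1)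
  have h4 := cubic2 (a0 := a11) (a1 := a8) (a2 := 0) (a3 := 0) (a4 := 0) (fun X => by linear_combination (hXY X 1).2.2.2.1)
  exact ⟨⟨h1.2.2.2.2, h1.1, (hXY 0 0).2.2.2.2, h1.2.2.2.1, h1.2.2.1⟩, ⟨h1.2.1, h2.2.2.2.1, h3.2.2.1, h4.2.1, h2.1⟩,
    ⟨h3.1, h4.1, h2.2.2.1, h2.2.1, h3.2.1⟩⟩

theorem col3 {k A : Type} [CommRing k] [CommRing A] [Algebra k A] (D : Derivation k A A) {u : Fin 9 → A}
    (V : Matrix (Fin 4) (Fin 4) A) (hV : um u * V = 1) (i : Fin 4) : ((um u).map D * V) i 3 = 0 := by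
  have hV' : V * um u = 1 := mul_eq_one_comm.1 hV
  have h1 : V.mulVec (Pi.single 3 1) = Pi.single 3 1 := by
    have h2 : (um u).mulVec (Pi.single 3 1) = Pi.single 3 1 := by
      funext j
      rw [Matrix.mulVec_single_one]
      unfold um
      fin_cases j <;> simp [Matrix.col]
    conv_lhs => rw [← h2]
    rw [Matrix.mulVec_mulVec, hV', Matrix.one_mulVec]
  have h3 : ((um u).map D * V).mulVec (Pi.single 3 1) i = 0 := by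
    rw [← Matrix.mulVec_mulVec, h1, Matrix.mulVec_single_one]
    unfold um
    fin_cases i <;> simp [Matrix.col]
  rw [Matrix.mulVec_single_one] at h3
  exact h3

/-- the fifteen equations -/
theorem eqs {k : Type} [CommRing k] [Algebra k F] (D : Derivation k F F) {u : Fin 9 → F} {g : Fin 7 → F} {c r : Fin 10 → F}
    (hF : ∀ m, D (coeff m (FF u g c r)) = 0) (V : Matrix (Fin 4) (Fin 4) F) (hV : um u * V = 1)
    {M : Matrix (Fin 4) (Fin 4) F} (hM : M = (um u).map D * V) (h0 : c 0 ≠ 0) (h3 : c 3 ≠ 0) (hg : g 0 ≠ 0) :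
    (M 3 0 = 0 ∧ M 3 1 = 0 ∧ M 1 0 = 0 ∧ M 0 1 = 0) ∧
    (2 * g 1 * M 2 0 + c 0 * M 3 2 = 0 ∧ 2 * g 3 * M 2 1 + c 3 * M 3 2 = 0 ∧
      2 * g 0 * M 1 2 + 2 * g 2 * M 2 0 + 2 * g 1 * M 2 1 + c 1 * M 3 2 = 0 ∧
      2 * g 0 * M 0 2 + 2 * g 3 * M 2 0 + 2 * g 2 * M 2 1 + c 2 * M 3 2 = 0) ∧
    (D (g 0) = -2 * g 0 * (M 0 0 + M 1 1) ∧
      D (g 1) = -2 * g 1 * (M 0 0 + M 2 2) - 3 * g 4 * M 2 0 - c 4 * M 3 2 ∧
      D (g 2) = -g 2 * (M 0 0 + M 1 1 + 2 * M 2 2) - 3 * g 4 * M 2 1 - 3 * g 5 * M 2 0 - c 5 * M 3 2 ∧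
      D (g 3) = -2 * g 3 * (M 1 1 + M 2 2) - 3 * g 5 * M 2 1 - c 6 * M 3 2) ∧
    (D (g 4) = -g 4 * (M 0 0 + 3 * M 2 2) - 2 * g 1 * M 0 2 - g 2 * M 1 2 - 4 * g 6 * M 2 0 - c 7 * M 3 2 ∧
      D (g 5) = -g 5 * (M 1 1 + 3 * M 2 2) - g 2 * M 0 2 - 2 * g 3 * M 1 2 - 4 * g 6 * M 2 1 - c 8 * M 3 2 ∧
      D (g 6) = -4 * g 6 * M 2 2 - g 4 * M 0 2 - g 5 * M 1 2 - c 9 * M 3 2) := by
  have hk := fun X Y Z : F => k1 D hF V hV ![X, Y, Z, 0]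
  rw [← hM] at hk
  have hm : ∀ (i : Fin 4) (X Y Z : F), M.mulVec ![X, Y, Z, 0] i = M i 0 * X + M i 1 * Y + M i 2 * Z := by
    intro i X Y Z
    simp [Matrix.mulVec, dotProduct, Fin.sum_univ_four]
  simp only [hm] at hk
  have key := quart3
    (a0 := c 0 * M 3 0) (a1 := c 3 * M 3 1)
    (a2 := D (g 6) + 4 * g 6 * M 2 2 + g 4 * M 0 2 + g 5 * M 1 2 + c 9 * M 3 2)
    (a3 := 2 * g 0 * M 1 0 + c 0 * M 3 1 + c 1 * M 3 0)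
    (a4 := D (g 0) + 2 * g 0 * (M 0 0 + M 1 1) + c 1 * M 3 1 + c 2 * M 3 0)
    (a5 := 2 * g 0 * M 0 1 + c 2 * M 3 1 + c 3 * M 3 0)
    (a6 := 2 * g 1 * M 2 0 + c 0 * M 3 2 + c 4 * M 3 0)
    (a7 := D (g 1) + 2 * g 1 * (M 0 0 + M 2 2) + 3 * g 4 * M 2 0 + g 2 * M 1 0 + c 4 * M 3 2 + c 7 * M 3 0)
    (a8 := D (g 4) + g 4 * (M 0 0 + 3 * M 2 2) + 2 * g 1 * M 0 2 + g 2 * M 1 2 + g 5 * M 1 0 + 4 * g 6 * M 2 0 + c 7 * M 3 2 +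
      c 9 * M 3 0)
    (a9 := 2 * g 3 * M 2 1 + c 3 * M 3 2 + c 6 * M 3 1)
    (a10 := D (g 3) + 2 * g 3 * (M 1 1 + M 2 2) + 3 * g 5 * M 2 1 + g 2 * M 0 1 + c 6 * M 3 2 + c 8 * M 3 1)
    (a11 := D (g 5) + g 5 * (M 1 1 + 3 * M 2 2) + g 2 * M 0 2 + 2 * g 3 * M 1 2 + g 4 * M 0 1 + 4 * g 6 * M 2 1 + c 8 * M 3 2 +
      c 9 * M 3 1)
    (a12 := 2 * g 0 * M 1 2 + 2 * g 2 * M 2 0 + 2 * g 1 * M 2 1 + c 1 * M 3 2 + c 4 * M 3 1 + c 5 * M 3 0)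
    (a13 := 2 * g 0 * M 0 2 + 2 * g 3 * M 2 0 + 2 * g 2 * M 2 1 + c 2 * M 3 2 + c 5 * M 3 1 + c 6 * M 3 0)
    (a14 := D (g 2) + g 2 * (M 0 0 + M 1 1 + 2 * M 2 2) + 3 * g 4 * M 2 1 + 3 * g 5 * M 2 0 + 2 * g 1 * M 0 1 + 2 * g 3 * M 1 0 +
      c 5 * M 3 2 + c 7 * M 3 1 + c 8 * M 3 0)
    (fun X Y Z => by
      have h := hk X Y Z
      simp only [fn, fnX, fnY, fnZ, fnW, Matrix.cons_val_zero, Matrix.cons_val_one, Matrix.cons_val] at h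
      linear_combination h)
  obtain ⟨⟨k0, k1, k2, k3, k4⟩, ⟨k5, k6, k7, k8, k9⟩, ⟨k10, k11, k12, k13, k14⟩⟩ := key
  have e30 : M 3 0 = 0 := (mul_eq_zero.1 k0).resolve_left h0
  have e31 : M 3 1 = 0 := (mul_eq_zero.1 k1).resolve_left h3
  have e10 : M 1 0 = 0 := by
    rw [e31, e30, mul_zero, mul_zero, add_zero, add_zero] at k3
    exact (mul_eq_zero.1 k3).resolve_left (mul_ne_zero two_ne_zero hg)
  have e01 : M 0 1 = 0 := by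
    rw [e31, e30, mul_zero, mul_zero, add_zero, add_zero] at k5
    exact (mul_eq_zero.1 k5).resolve_left (mul_ne_zero two_ne_zero hg)
  simp only [e30, e31, e10, e01, mul_zero, add_zero] at k4 k6 k7 k8 k9 k10 k11 k12 k13 k14
  exact ⟨⟨e30, e31, e10, e01⟩, ⟨by linear_combination k6, by linear_combination k9, by linear_combination k12,
    by linear_combination k13⟩, ⟨by linear_combination k4, by linear_combination k7, by linear_combination k14,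
    by linear_combination k10⟩, ⟨by linear_combination k8, by linear_combination k11, by linear_combination k2⟩⟩

end

end H77.QS
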