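import Pool.Agent.H77.QS.Poly

/-! # QS.Cst : derivations which kill the coefficients of a polynomial; the fundamental identity `k1` -/

namespace H77.QS

open MvPolynomial

section
variable {k A : Type} [CommRing k] [CommRing A] [Algebra k A] (D : Derivation k A A)

theorem cst_eval {n : ℕ} (P : MvPolynomial (Fin n) A) (hP : ∀ m, D (coeff m P) = 0) (w : Fin n → A) :
    D (eval w P) = ∑ i, eval w (pderiv i P) * D (w i) := by
  let S : MvPolynomial (Fin n) A → Prop := fun P => D (eval w P) = ∑ i, eval w (pderiv i P) * D (w i)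
  have hadd : ∀ P Q, S P → S Q → S (P + Q) := by
    intro P Q hP hQ
    change D (eval w (P + Q)) = ∑ i, eval w (pderiv i (P + Q)) * D (w i)
    rw [map_add, map_add, hP, hQ, ← Finset.sum_add_distrib]
    exact Finset.sum_congr rfl fun i _ => by rw [map_add, map_add, add_mul]
  have hmul : ∀ P Q, S P → S Q → S (P * Q) := by
    intro P Q hP hQ
    change D (eval w (P * Q)) = ∑ i, eval w (pderiv i (P * Q)) * D (w i)
    rw [map_mul, Derivation.leibniz, hP, hQ, smul_eq_mul, smul_eq_mul, Finset.mul_sum, Finset.mul_sum,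
      ← Finset.sum_add_distrib]
    refine Finset.sum_congr rfl fun i _ => ?_
    rw [Derivation.leibniz, map_add, smul_eq_mul, smul_eq_mul, map_mul, map_mul]
    ring
  have hC : ∀ a, D a = 0 → S (C a) := by
    intro a ha
    change D (eval w (C a)) = ∑ i, eval w (pderiv i (C a)) * D (w i)
    simp [ha]
  have h1 : S 1 := by
    have := hC 1 D.map_one_eq_zero
    rwa [C_1] at this
  have hX : ∀ i, S (X i) := by
    intro i
    change D (eval w (X i)) = ∑ j, eval w (pderiv j (X i)) * D (w j)
    rw [Finset.sum_eq_single i]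
    · simp
    · intro b _ hb
      rw [pderiv_X_of_ne hb.symm]
      simp
    · simp
  have hpow : ∀ i (e : ℕ), S (X i ^ e) := by
    intro i e
    induction e with
    | zero => rw [pow_zero]; exact h1
    | succ e ih => rw [pow_succ]; exact hmul _ _ ih (hX i)
  have hmain : S P := by
    rw [P.as_sum]
    refine Finset.sum_induction _ S hadd ?_ ?_
    · have := hC 0 (map_zero D)
      rwa [C_0] at this
    · intro m _
      rw [monomial_eq]
      refine hmul _ _ (hC _ (hP m)) ?_
      exact Finset.prod_induction _ S hmul h1 fun i _ => hpow i _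
  exact hmain

/-- the fundamental identity: a derivation which kills the coefficients of the form moves the normal form by a linear
vector field -/
theorem k1 {u : Fin 9 → A} {g : Fin 7 → A} {c r : Fin 10 → A} (hF : ∀ m, D (coeff m (FF u g c r)) = 0)
    (V : Matrix (Fin 4) (Fin 4) A) (hV : um u * V = 1) (z : Fin 4 → A) :
    fn (fun i => D (g i)) (fun i => D (c i)) (fun i => D (r i)) (z 0) (z 1) (z 2) (z 3) +
      fnX g c r (z 0) (z 1) (z 2) (z 3) * (((um u).map D * V).mulVec z 0) +
      fnY g c r (z 0) (z 1) (z 2) (z 3) * (((um u).map D * V).mulVec z 1) +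
      fnZ g c r (z 0) (z 1) (z 2) (z 3) * (((um u).map D * V).mulVec z 2) +
      fnW g c r (z 0) (z 1) (z 2) (z 3) * (((um u).map D * V).mulVec z 3) = 0 := by
  have hw : ∀ i, ul u i (V.mulVec z) = z i := by
    intro i
    unfold ul
    rw [Matrix.mulVec_mulVec, hV, Matrix.one_mulVec]
  have hd : ∀ i, D (z i) = ((um u).map D * V).mulVec z i + ∑ j, um u i j * D (V.mulVec z j) := by
    intro i
    rw [← hw i, ul_eq, map_sum, ← Matrix.mulVec_mulVec]
    change _ = ∑ j, (um u).map D i j * V.mulVec z j + _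
    rw [← Finset.sum_add_distrib]
    refine Finset.sum_congr rfl fun j _ => ?_
    rw [Derivation.leibniz, smul_eq_mul, smul_eq_mul, Matrix.map_apply]
    ring
  have h1 := cst_eval D (FF u g c r) hF (V.mulVec z)
  rw [eval_FF] at h1
  unfold fu at h1
  simp only [pderiv_FF, hw] at h1
  rw [leib] at h1
  have h2 : ∑ i, (fnX g c r (z 0) (z 1) (z 2) (z 3) * um u 0 i + fnY g c r (z 0) (z 1) (z 2) (z 3) * um u 1 i +
      fnZ g c r (z 0) (z 1) (z 2) (z 3) * um u 2 i + fnW g c r (z 0) (z 1) (z 2) (z 3) * um u 3 i) * D (V.mulVec z i) =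
      fnX g c r (z 0) (z 1) (z 2) (z 3) * ∑ i, um u 0 i * D (V.mulVec z i) +
      fnY g c r (z 0) (z 1) (z 2) (z 3) * ∑ i, um u 1 i * D (V.mulVec z i) +
      fnZ g c r (z 0) (z 1) (z 2) (z 3) * ∑ i, um u 2 i * D (V.mulVec z i) +
      fnW g c r (z 0) (z 1) (z 2) (z 3) * ∑ i, um u 3 i * D (V.mulVec z i) := by
    rw [Finset.mul_sum, Finset.mul_sum, Finset.mul_sum, Finset.mul_sum, ← Finset.sum_add_distrib, ← Finset.sum_add_distrib,
      ← Finset.sum_add_distrib]
    exact Finset.sum_congr rfl fun i _ => by ring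
  rw [h2] at h1
  have e0 := hd 0
  have e1 := hd 1
  have e2 := hd 2
  have e3 := hd 3
  linear_combination h1 + fnX g c r (z 0) (z 1) (z 2) (z 3) * (-e0) + fnY g c r (z 0) (z 1) (z 2) (z 3) * (-e1) +
    fnZ g c r (z 0) (z 1) (z 2) (z 3) * (-e2) + fnW g c r (z 0) (z 1) (z 2) (z 3) * (-e3)

end

end H77.QS
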