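import Pool.Agent.H8.QS.UDef
import Mathlib

/-! # QS.Def : the normal form of a quartic form with a bitangent plane (definitions)

`fn g c r` is the general quartic form in `X, Y, Z, W` whose restriction to `W = 0` is `α X²Y² + Z² (..) + Z³ (..) + ε Z⁴`: nodes at `(1,0,0,0)` and `(0,1,0,0)`.
`um u` is a linear change of coordinates with nine parameters, `FF u g c r = fn g c r ∘ um u` is the universal quartic form (36 = 35 + 1 parameters). -/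

namespace H77.QS

open MvPolynomial

section
variable {R : Type} [CommRing R]

/-- the normal form -/
def fn (g : Fin 7 → R) (c r : Fin 10 → R) (X Y Z W : R) : R :=
  g 0 * X ^ 2 * Y ^ 2 + Z ^ 2 * (g 1 * X ^ 2 + g 2 * X * Y + g 3 * Y ^ 2) + Z ^ 3 * (g 4 * X + g 5 * Y) + g 6 * Z ^ 4 +
  W * (c 0 * X ^ 3 + c 1 * X ^ 2 * Y + c 2 * X * Y ^ 2 + c 3 * Y ^ 3 + c 4 * X ^ 2 * Z + c 5 * X * Y * Z + c 6 * Y ^ 2 * Z +
    c 7 * X * Z ^ 2 + c 8 * Y * Z ^ 2 + c 9 * Z ^ 3) +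
  W ^ 2 * (r 0 * X ^ 2 + r 1 * X * Y + r 2 * X * Z + r 3 * X * W + r 4 * Y ^ 2 + r 5 * Y * Z + r 6 * Y * W + r 7 * Z ^ 2 +
    r 8 * Z * W + r 9 * W ^ 2)

/-- partial derivative with respect to `X` -/
def fnX (g : Fin 7 → R) (c r : Fin 10 → R) (X Y Z W : R) : R :=
  2 * g 0 * X * Y ^ 2 + Z ^ 2 * (2 * g 1 * X + g 2 * Y) + Z ^ 3 * g 4 +
  W * (3 * c 0 * X ^ 2 + 2 * c 1 * X * Y + c 2 * Y ^ 2 + 2 * c 4 * X * Z + c 5 * Y * Z + c 7 * Z ^ 2) +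
  W ^ 2 * (2 * r 0 * X + r 1 * Y + r 2 * Z + r 3 * W)

/-- partial derivative with respect to `Y` -/
def fnY (g : Fin 7 → R) (c r : Fin 10 → R) (X Y Z W : R) : R :=
  2 * g 0 * X ^ 2 * Y + Z ^ 2 * (g 2 * X + 2 * g 3 * Y) + Z ^ 3 * g 5 +
  W * (c 1 * X ^ 2 + 2 * c 2 * X * Y + 3 * c 3 * Y ^ 2 + c 5 * X * Z + 2 * c 6 * Y * Z + c 8 * Z ^ 2) +
  W ^ 2 * (r 1 * X + 2 * r 4 * Y + r 5 * Z + r 6 * W)

/-- partial derivative with respect to `Z` -/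
def fnZ (g : Fin 7 → R) (c r : Fin 10 → R) (X Y Z W : R) : R :=
  2 * Z * (g 1 * X ^ 2 + g 2 * X * Y + g 3 * Y ^ 2) + 3 * Z ^ 2 * (g 4 * X + g 5 * Y) + 4 * g 6 * Z ^ 3 +
  W * (c 4 * X ^ 2 + c 5 * X * Y + c 6 * Y ^ 2 + 2 * c 7 * X * Z + 2 * c 8 * Y * Z + 3 * c 9 * Z ^ 2) +
  W ^ 2 * (r 2 * X + r 5 * Y + 2 * r 7 * Z + r 8 * W)

/-- partial derivative with respect to `W` -/
def fnW (g : Fin 7 → R) (c r : Fin 10 → R) (X Y Z W : R) : R :=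
  (c 0 * X ^ 3 + c 1 * X ^ 2 * Y + c 2 * X * Y ^ 2 + c 3 * Y ^ 3 + c 4 * X ^ 2 * Z + c 5 * X * Y * Z + c 6 * Y ^ 2 * Z +
    c 7 * X * Z ^ 2 + c 8 * Y * Z ^ 2 + c 9 * Z ^ 3) +
  2 * W * (r 0 * X ^ 2 + r 1 * X * Y + r 2 * X * Z + r 3 * X * W + r 4 * Y ^ 2 + r 5 * Y * Z + r 6 * Y * W + r 7 * Z ^ 2 +
    r 8 * Z * W + r 9 * W ^ 2) +
  W ^ 2 * (r 3 * X + r 6 * Y + r 8 * Z + 2 * r 9 * W)

/-- the change of coordinates -/
def um (u : Fin 9 → R) : Matrix (Fin 4) (Fin 4) R :=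
  !![1, u 0, u 1, 0; u 2, 1, u 3, 0; u 4, u 5, 1, 0; u 6, u 7, u 8, 1]

/-- the linear form number `i` of the change of coordinates, evaluated at a vector -/
def ul (u : Fin 9 → R) (i : Fin 4) (w : Fin 4 → R) : R := (um u).mulVec w i

/-- the value of the form -/
def fu (u : Fin 9 → R) (g : Fin 7 → R) (c r : Fin 10 → R) (w : Fin 4 → R) : R :=
  fn g c r (ul u 0 w) (ul u 1 w) (ul u 2 w) (ul u 3 w)

/-- the form as a polynomial -/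
noncomputable def FF (u : Fin 9 → R) (g : Fin 7 → R) (c r : Fin 10 → R) : MvPolynomial (Fin 4) R :=
  fu (fun i => C (u i)) (fun i => C (g i)) (fun i => C (c i)) (fun i => C (r i)) (fun i => X i)

/-- the coefficients of the residual binary quartic -/
def qq (g : Fin 7 → R) : Fin 5 → R :=
  ![-4 * g 0 * g 3, -4 * g 0 * g 5, g 2 ^ 2 - 4 * g 0 * g 6 - 4 * g 1 * g 3, 2 * g 2 * g 4 - 4 * g 1 * g 5,
    g 4 ^ 2 - 4 * g 1 * g 6]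

/-- the value of a binary quartic -/
def qv (q : Fin 5 → R) (x y : R) : R := q 0 * x ^ 4 + q 1 * x ^ 3 * y + q 2 * x ^ 2 * y ^ 2 + q 3 * x * y ^ 3 + q 4 * y ^ 4

/-- the invariant `I` -/
def iI (q : Fin 5 → R) : R := 12 * q 0 * q 4 - 3 * q 1 * q 3 + q 2 ^ 2

/-- the invariant `J` -/
def iJ (q : Fin 5 → R) : R :=
  72 * q 0 * q 2 * q 4 + 9 * q 1 * q 2 * q 3 - 27 * q 0 * q 3 ^ 2 - 27 * q 1 ^ 2 * q 4 - 2 * q 2 ^ 3

/-- the differential of `I` at `q` in the direction `p` -/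
def dI (q p : Fin 5 → R) : R :=
  12 * (p 0 * q 4 + q 0 * p 4) - 3 * (p 1 * q 3 + q 1 * p 3) + 2 * q 2 * p 2

/-- the differential of `J` at `q` in the direction `p` -/
def dJ (q p : Fin 5 → R) : R :=
  72 * (p 0 * q 2 * q 4 + q 0 * p 2 * q 4 + q 0 * q 2 * p 4) + 9 * (p 1 * q 2 * q 3 + q 1 * p 2 * q 3 + q 1 * q 2 * p 3) -
    27 * (p 0 * q 3 ^ 2 + 2 * q 0 * q 3 * p 3) - 27 * (2 * q 1 * p 1 * q 4 + q 1 ^ 2 * p 4) - 6 * q 2 ^ 2 * p 2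

/-- the logarithmic differential of `I^3/J^2`, multiplied by `I J` -/
def om (q p : Fin 5 → R) : R := 3 * iJ q * dI q p - 2 * iI q * dJ q p

/-- the differential of `qq` at `g` in the direction `v` -/
def dq (g v : Fin 7 → R) : Fin 5 → R :=
  ![-4 * (v 0 * g 3 + g 0 * v 3), -4 * (v 0 * g 5 + g 0 * v 5),
    2 * g 2 * v 2 - 4 * (v 0 * g 6 + g 0 * v 6) - 4 * (v 1 * g 3 + g 1 * v 3),
    2 * (v 2 * g 4 + g 2 * v 4) - 4 * (v 1 * g 5 + g 1 * v 5), 2 * g 4 * v 4 - 4 * (v 1 * g 6 + g 1 * v 6)]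

/-- the direction in which `g` moves along the curve of bitangent planes (multiplied by `2 g0 g1 g3`) -/
def mv (g : Fin 7 → R) (c : Fin 10 → R) : Fin 7 → R :=
  let m := 2 * g 0 * g 1 * g 3
  let a20 := -(g 0 * g 3 * c 0)
  let a21 := -(g 0 * g 1 * c 3)
  let a12 := -(c 1 * g 1 * g 3) + g 2 * g 3 * c 0 + g 1 ^ 2 * c 3
  let a02 := -(c 2 * g 1 * g 3) + g 3 ^ 2 * c 0 + g 1 * g 2 * c 3
  ![0, -(3 * g 4 * a20 + c 4 * m), -(3 * g 4 * a21 + 3 * g 5 * a20 + c 5 * m), -(3 * g 5 * a21 + c 6 * m),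
    -(2 * g 1 * a02 + g 2 * a12 + 4 * g 6 * a20 + c 7 * m), -(g 2 * a02 + 2 * g 3 * a12 + 4 * g 6 * a21 + c 8 * m),
    -(g 4 * a02 + g 5 * a12 + c 9 * m)]

/-- the explicit polynomial which has to be nonzero -/
def EE (g : Fin 7 → R) (c : Fin 10 → R) : R := om (qq g) (dq g (mv g c))

end

end H77.QS
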