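import Pool.Agent.H50.Z.L5_Der
import Pool.Agent.H77.QS.Def

/-! # QS.Der : constants of derivations; the field of parameters `Om` -/

namespace H77.QS

open MvPolynomial

section
variable {k Ω : Type} [Field k] [Field Ω] [Algebra k Ω]

/-- the field of constants of a derivation -/
def cf (D : Derivation k Ω Ω) : IntermediateField k Ω where
  carrier := {x | D x = 0}
  mul_mem' := by
    intro x y hx hy
    change D (x * y) = 0
    rw [D.leibniz, show D x = 0 from hx, show D y = 0 from hy, smul_zero, smul_zero, add_zero]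
  one_mem' := D.map_one_eq_zero
  add_mem' := by
    intro x y hx hy
    change D (x + y) = 0
    rw [map_add, show D x = 0 from hx, show D y = 0 from hy, add_zero]
  zero_mem' := map_zero D
  algebraMap_mem' := fun r => D.map_algebraMap r
  inv_mem' := by
    intro x hx
    change D x⁻¹ = 0
    rw [D.leibniz_inv, show D x = 0 from hx, smul_zero]

theorem mem_cf {D : Derivation k Ω Ω} {x : Ω} : x ∈ cf D ↔ D x = 0 := Iff.rfl

variable [CharZero Ω]

theorem cf_alg (D : Derivation k Ω Ω) {x : Ω} (hx : IsAlgebraic (cf D) x) : D x = 0 := by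
  let DB : Derivation (cf D) Ω Ω :=
    { toFun := D
      map_add' := D.map_add
      map_smul' := fun b x => by
        change D ((b : Ω) * x) = (b : Ω) • D x
        rw [D.leibniz, show D (b : Ω) = 0 from b.2, smul_zero, add_zero]
      map_one_eq_zero' := D.map_one_eq_zero
      leibniz' := D.leibniz }
  have hchar : CharZero (cf D) := charZero_of_injective_algebraMap (R := ℚ) (algebraMap ℚ (cf D)).injective
  have hint : IsIntegral (cf D) x := hx.isIntegral
  have hsep : (minpoly (cf D) x).Separable := (minpoly.irreducible hint).separable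
  have h1 := DB.map_aeval (minpoly (cf D) x) x
  rw [minpoly.aeval, map_zero] at h1
  have h2 : Polynomial.aeval x (Polynomial.derivative (minpoly (cf D) x)) ≠ 0 :=
    hsep.aeval_derivative_ne_zero (minpoly.aeval _ _)
  exact (smul_eq_zero.1 h1.symm).resolve_left h2

theorem der_alg (D : Derivation k Ω Ω) {F : Type} [Field F] [Algebra F Ω] (hF : ∀ y : F, D (algebraMap F Ω y) = 0)
    {S : Set Ω} (hS : ∀ s ∈ S, D s = 0) {x : Ω} (hx : IsAlgebraic (IntermediateField.adjoin F S) x) : D x = 0 := by
  apply cf_alg
  have h : ∀ y ∈ IntermediateField.adjoin F S, y ∈ cf D := by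
    intro y hy
    induction hy using IntermediateField.adjoin_induction with
    | mem y hy => exact hS y hy
    | algebraMap y => exact hF y
    | add y z _ _ hy hz => exact add_mem hy hz
    | inv y _ hy => exact inv_mem hy
    | mul y z _ _ hy hz => exact mul_mem hy hz
  let f : IntermediateField.adjoin F S →+* cf D :=
    { toFun := fun y => ⟨y, h y y.2⟩
      map_one' := rfl
      map_mul' := fun _ _ => rfl
      map_zero' := rfl
      map_add' := fun _ _ => rfl }
  exact hx.ringHom_of_comp_eq f (RingHom.id Ω) f.injective (by ext; rfl)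

end

/-- the field of the parameters -/
theorem ex_om : ∃ (Ω : Type) (_ : Field Ω) (_ : IsAlgClosed Ω) (_ : CharZero Ω) (v : Fin 37 → Ω), IsTranscendenceBasis ℚ v := by
  let Om := AlgebraicClosure (FractionRing (MvPolynomial (Fin 37) ℚ))
  have h1 : Function.Injective (algebraMap (MvPolynomial (Fin 37) ℚ) (FractionRing (MvPolynomial (Fin 37) ℚ))) :=
    IsFractionRing.injective _ _
  have h2 : Function.Injective (algebraMap (FractionRing (MvPolynomial (Fin 37) ℚ)) Om) :=
    (algebraMap (FractionRing (MvPolynomial (Fin 37) ℚ)) Om).injective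
  have h3 : Function.Injective (algebraMap (MvPolynomial (Fin 37) ℚ) Om) := by
    rw [IsScalarTower.algebraMap_eq (MvPolynomial (Fin 37) ℚ) (FractionRing (MvPolynomial (Fin 37) ℚ)) Om]
    exact h2.comp h1
  have hc : CharZero Om := charZero_of_injective_algebraMap (R := MvPolynomial (Fin 37) ℚ) h3
  have h4 : IsTranscendenceBasis ℚ (X : Fin 37 → MvPolynomial (Fin 37) ℚ) := IsTranscendenceBasis.mvPolynomial _ _
  have h0 : Algebra.IsAlgebraic (MvPolynomial (Fin 37) ℚ) (FractionRing (MvPolynomial (Fin 37) ℚ)) :=
    IsLocalization.isAlgebraic _ (nonZeroDivisors _)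
  have halg : Algebra.IsAlgebraic (MvPolynomial (Fin 37) ℚ) Om :=
    Algebra.IsAlgebraic.trans (MvPolynomial (Fin 37) ℚ) (FractionRing (MvPolynomial (Fin 37) ℚ)) Om
  have hf : FaithfulSMul (MvPolynomial (Fin 37) ℚ) Om := (faithfulSMul_iff_algebraMap_injective _ _).2 h3
  have h5 := h4.algebraMap_comp (A := Om)
  refine ⟨Om, inferInstance, inferInstance, hc, algebraMap (MvPolynomial (Fin 37) ℚ) Om ∘ X, ?_⟩
  convert h5

section
variable {Ω : Type} [Field Ω] [CharZero Ω] {v : Fin 37 → Ω} (hv : IsTranscendenceBasis ℚ v)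
include hv

/-- a polynomial with a nonzero value has a nonzero value at the parameters -/
theorem nz (P : MvPolynomial (Fin 37) ℤ) (s : Fin 37 → ℤ) (h : eval s P ≠ 0) : aeval v P ≠ 0 := by
  intro h0
  have h1 : AlgebraicIndependent ℤ v := hv.1.restrictScalars (Int.cast_injective)
  have : P = 0 := h1.eq_zero_of_aeval_eq_zero _ h0
  rw [this, map_zero] at h
  exact h rfl

/-- every element is killed by a derivation which kills the parameters -/
theorem der_vv {k : Type} [Field k] [Algebra k Ω] (D : Derivation k Ω Ω) (h : ∀ i, D (v i) = 0) (x : Ω) : D x = 0 := by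
  have h1 : Algebra.IsAlgebraic (IntermediateField.adjoin ℚ (Set.range v)) Ω := hv.isAlgebraic_field
  refine der_alg D (F := ℚ) (fun y => ?_) (S := Set.range v) ?_ (h1.isAlgebraic x)
  · have : algebraMap ℚ Ω y = (y : Ω) := by simp
    rw [this, Rat.cast_def, div_eq_mul_inv, D.leibniz, D.leibniz_inv, D.map_natCast, D.map_intCast]
    simp
  · rintro _ ⟨i, rfl⟩
    exact h i

end

end H77.QS
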