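import Pool.Agent.H77.QS.Frm

/-! # QS.Exi : existence of a generic frame with a generic point for the universal quartic -/

namespace H77.QS

open H8.QS

theorem card_Mo4 : Fintype.card Mo4 = 35 := by
  have h : Fintype.card Mo4 = ex4.card := Fintype.card_coe ex4
  rw [h]
  unfold ex4
  rw [Finset.card_finsuppAntidiag_nat_eq_choose]
  rfl

theorem exi : Exi := by
  classical
  obtain ⟨Ω, iF, iA, iC, v, hv⟩ := ex_om
  obtain ⟨r⟩ := ex_fd hv
  obtain ⟨y, hy⟩ := IsAlgClosed.exists_pow_nat_eq (v 36 ^ 3 - 3 * r.a * v 36 - 2 * r.b) (n := 2) (by norm_num)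
  have hdl := dl_ne hv
  have hp3 := FD.p3_ne hv r y hy
  let F := FF (pU v) (pG v) (pC v) (pR v)
  let a : Mo4 → Ω := fun m => MvPolynomial.coeff m.1 F
  let p : Fin 2 → Ω := ![r.p y 0 / r.p y 3, r.p y 1 / r.p y 3]
  -- derivations which kill the coefficients
  have hcoef : ∀ {k : Type} [Field k] [Algebra k Ω] (D : Derivation k Ω Ω), (∀ m, D (a m) = 0) →
      ∀ m, D (MvPolynomial.coeff m F) = 0 := by
    intro k _ _ D h m
    by_cases hm : m ∈ ex4
    · exact h ⟨m, hm⟩
    · change D (MvPolynomial.coeff m (FF (pU v) (pG v) (pC v) (pR v))) = 0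
      rw [coeff_FF _ _ _ _ hm, map_zero]
  have hind : IsTranscendenceBasis ℚ (Sum.elim a p) := by
    refine basis_of_der hv (Sum.elim a p) ?_ ?_
    · rw [Fintype.card_sum, card_Mo4, Fintype.card_fin]
    · intro D i
      have hk : ∀ x ∈ Set.range (Sum.elim a p), D x = 0 := fun x hx =>
        D.map_algebraMap (⟨x, IntermediateField.subset_adjoin _ _ hx⟩ : IntermediateField.adjoin ℚ (Set.range (Sum.elim a p)))
      refine kil_p hv r y D (hcoef D fun m => hk _ ⟨Sum.inl m, rfl⟩) hy (hk _ ⟨Sum.inr 0, rfl⟩) (hk _ ⟨Sum.inr 1, rfl⟩) i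
  obtain ⟨iU, ha, hp⟩ := emb a p hind.1
  have hFU : MvPolynomial.map (algebraMap U4 Ω) fU = FF (pU v) (pG v) (pC v) (pR v) := by
    rw [← sum_FF]
    unfold fU
    rw [map_sum]
    refine Finset.sum_congr rfl fun m _ => ?_
    rw [MvPolynomial.map_monomial, ha]
  have haU : ∀ {k : Type} [Field k] [Algebra k Ω] [Algebra U4 k] [IsScalarTower U4 k Ω] (D : Derivation k Ω Ω) (m : Mo4),
      D (a m) = 0 := by
    intro k _ _ _ _ D m
    rw [← ha, IsScalarTower.algebraMap_apply U4 k Ω]
    exact D.map_algebraMap _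
  have hGen : Gen (r.p y) := ⟨hp3, hp⟩
  -- everything is algebraic over the point
  have halg : Algebra.IsAlgebraic (IntermediateField.adjoin U4 ({r.p y 0 / r.p y 3, r.p y 1 / r.p y 3} : Set Ω)) Ω := by
    refine alg_of_der hv fun D => ?_
    have hk : ∀ x ∈ ({r.p y 0 / r.p y 3, r.p y 1 / r.p y 3} : Set Ω), D x = 0 := fun x hx =>
      D.map_algebraMap (⟨x, IntermediateField.subset_adjoin _ _ hx⟩ :
        IntermediateField.adjoin U4 ({r.p y 0 / r.p y 3, r.p y 1 / r.p y 3} : Set Ω))
    exact kil_p hv r y D (hcoef D fun m => haU D m) hy (hk _ (by simp)) (hk _ (by simp))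
  -- the modulus is transcendental
  have htr : Transcendental U4 r.a := by
    intro hal
    have h1 : Algebra.IsAlgebraic (IntermediateField.adjoin U4 ({v 36} : Set Ω)) Ω := by
      refine alg_of_der hv fun D => ?_
      have hDa : D r.a = 0 := by
        refine cf_alg D ?_
        have h2 : ∀ z : U4, algebraMap U4 Ω z ∈ cf D := by
          intro z
          rw [mem_cf, IsScalarTower.algebraMap_apply U4 (IntermediateField.adjoin U4 ({v 36} : Set Ω)) Ω]
          exact D.map_algebraMap _
        let f : U4 →+* cf D :=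
          { toFun := fun z => ⟨algebraMap U4 Ω z, h2 z⟩
            map_one' := Subtype.ext (map_one _)
            map_mul' := fun _ _ => Subtype.ext (map_mul _ _ _)
            map_zero' := Subtype.ext (map_zero _)
            map_add' := fun _ _ => Subtype.ext (map_add _ _ _) }
        exact hal.ringHom_of_comp_eq f (RingHom.id Ω) f.injective (by ext; rfl)
      obtain ⟨kU, kG, kC, kR⟩ := kil_a hv r D (hcoef D fun m => haU D m) hDa
      have hl : D (v 36) = 0 :=
        D.map_algebraMap (⟨v 36, IntermediateField.subset_adjoin _ _ rfl⟩ : IntermediateField.adjoin U4 ({v 36} : Set Ω))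
      exact all_v (P := fun x => D x = 0) kU kG kC kR hl
    have h2 := alg_adj ({v 36} : Set Ω) h1
    have h3 : Algebra.trdeg U4 Ω ≤ Cardinal.mk ({v 36} : Set Ω) := Algebra.IsAlgebraic.trdeg_le_cardinalMk U4 _
    have h4 := hp.cardinalMk_le_trdeg
    have h5 := h4.trans h3
    rw [Cardinal.mk_fintype, Cardinal.mk_singleton, Fintype.card_fin] at h5
    norm_num at h5
  refine ⟨Ω, iF, iA, iU, frm hdl hFU r, v 36, y, r.p y, frm_nd hdl hFU r, htr, ?_, ?_, frm_on hv hFU r y hy, hGen, halg⟩
  · intro z hz
    have hc : CharZero (IntermediateField.adjoin U4 ({r.a} : Set Ω)) :=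
      charZero_of_injective_algebraMap (R := ℚ) (algebraMap ℚ (IntermediateField.adjoin U4 ({r.a} : Set Ω))).injective
    refine H50.Z.isAlgebraic_of_derivation z fun D => ?_
    have hDa : D r.a = 0 :=
      D.map_algebraMap (⟨r.a, IntermediateField.subset_adjoin _ _ rfl⟩ : IntermediateField.adjoin U4 ({r.a} : Set Ω))
    obtain ⟨kU, kG, kC, kR⟩ := kil_a hv r D (hcoef D fun m => haU D m) hDa
    obtain ⟨k1, k2, k3, k4, k5, k6, k7⟩ := r.kill D kG
    have hum : (um (pU v)).map D = 0 := by
      ext i j
      rw [Matrix.map_apply, Matrix.zero_apply]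
      unfold um
      have d1 : D (1 : Ω) = 0 := D.map_one_eq_zero
      fin_cases i <;> fin_cases j <;> first | exact d1 | exact map_zero D | exact kU _
    -- the entries of the inverse are killed
    have mu : ∀ i, pU v i ∈ cf D := kU
    have mdl : dl (pU v) ∈ cf D := by
      unfold dl
      exact sub_mem (sub_mem (sub_mem (add_mem (add_mem (one_mem _) (mul_mem (mul_mem (mu 0) (mu 3)) (mu 4)))
        (mul_mem (mul_mem (mu 1) (mu 2)) (mu 5))) (mul_mem (mu 1) (mu 4))) (mul_mem (mu 0) (mu 2))) (mul_mem (mu 3) (mu 5))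
    have mdi : (dl (pU v))⁻¹ ∈ cf D := inv_mem mdl
    have hvec : ∀ z : Fin 4 → Ω, (∀ i, z i ∈ cf D) → ∀ i, vec v z i ∈ cf D := by
      intro z hz i
      have hvm : ∀ i l : Fin 4, vm (pU v) i l ∈ cf D := by
        intro i l
        have m0 := mu 0
        have m1 := mu 1
        have m2 := mu 2
        have m3 := mu 3
        have m4 := mu 4
        have m5 := mu 5
        have m6 := mu 6
        have m7 := mu 7
        have m8 := mu 8
        have c00 := sub_mem (one_mem (cf D)) (mul_mem m3 m5)
        have c01 := sub_mem (mul_mem m3 m4) m2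
        have c02 := sub_mem (mul_mem m2 m5) m4
        have c10 := sub_mem (mul_mem m1 m5) m0
        have c11 := sub_mem (one_mem (cf D)) (mul_mem m1 m4)
        have c12 := sub_mem (mul_mem m0 m4) m5
        have c20 := sub_mem (mul_mem m0 m3) m1
        have c21 := sub_mem (mul_mem m1 m2) m3
        have c22 := sub_mem (one_mem (cf D)) (mul_mem m0 m2)
        unfold vm
        fin_cases i <;> fin_cases l
        · exact mul_mem c00 mdi
        · exact mul_mem c10 mdi
        · exact mul_mem c20 mdi
        · exact zero_mem _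
        · exact mul_mem c01 mdi
        · exact mul_mem c11 mdi
        · exact mul_mem c21 mdi
        · exact zero_mem _
        · exact mul_mem c02 mdi
        · exact mul_mem c12 mdi
        · exact mul_mem c22 mdi
        · exact zero_mem _
        · exact mul_mem (neg_mem (add_mem (add_mem (mul_mem m6 c00) (mul_mem m7 c01)) (mul_mem m8 c02))) mdi
        · exact mul_mem (neg_mem (add_mem (add_mem (mul_mem m6 c10) (mul_mem m7 c11)) (mul_mem m8 c12))) mdi
        · exact mul_mem (neg_mem (add_mem (add_mem (mul_mem m6 c20) (mul_mem m7 c21)) (mul_mem m8 c22))) mdi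
        · exact one_mem _
      unfold vec Matrix.mulVec dotProduct
      exact sum_mem fun j _ => mul_mem (hvm i j) (hz j)
    change z ∈ Set.range (fx v) ∪ Set.range (fd r) ∪ Set.range (fe r) ∪ {r.σ * r.d2, r.σ * r.e2, r.a, r.b} at hz
    rw [← mem_cf]
    rcases hz with ((⟨i, rfl⟩ | ⟨i, rfl⟩) | ⟨i, rfl⟩) | hz
    · refine hvec _ (fun j => ?_) i
      fin_cases j
      · exact one_mem _
      · exact zero_mem _
      · exact zero_mem _
      · exact zero_mem _
    · refine hvec _ (fun j => ?_) i
      fin_cases j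
      · exact zero_mem _
      · exact k1
      · exact k2
      · exact zero_mem _
    · refine hvec _ (fun j => ?_) i
      fin_cases j
      · exact zero_mem _
      · exact k3
      · exact k4
      · exact zero_mem _
    · simp only [Set.mem_insert_iff, Set.mem_singleton_iff] at hz
      rcases hz with rfl | rfl | rfl | rfl
      · exact mul_mem (mem_cf.2 k5) (mem_cf.2 k2)
      · exact mul_mem (mem_cf.2 k5) (mem_cf.2 k4)
      · exact k6
      · exact k7
  · exact hy

end H77.QS
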