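import Pool.Agent.H77.QS.Poly

/-! # QS.Hom : the form is homogeneous of degree 4; its coefficients determine it -/

namespace H77.QS

open MvPolynomial H8.QS

section
variable {R : Type} [CommRing R]

theorem FF_hom (u : Fin 9 → R) (g : Fin 7 → R) (c r : Fin 10 → R) : (FF u g c r).IsHomogeneous 4 := by
  have hL : ∀ i, (ul (fun k => C (u k)) i (fun i => (X i : MvPolynomial (Fin 4) R))).IsHomogeneous 1 := by
    intro i
    rw [ul_eq]
    refine IsHomogeneous.sum _ _ _ fun j _ => ?_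
    rw [← um_map C u i j]
    simpa using (isHomogeneous_C (Fin 4) (um u i j)).mul (isHomogeneous_X R j)
  unfold FF fu
  have h0 := hL 0
  have h1 := hL 1
  have h2 := hL 2
  have h3 := hL 3
  generalize ul (fun k => C (u k)) 0 (fun i => (X i : MvPolynomial (Fin 4) R)) = L0 at h0 ⊢
  generalize ul (fun k => C (u k)) 1 (fun i => (X i : MvPolynomial (Fin 4) R)) = L1 at h1 ⊢
  generalize ul (fun k => C (u k)) 2 (fun i => (X i : MvPolynomial (Fin 4) R)) = L2 at h2 ⊢
  generalize ul (fun k => C (u k)) 3 (fun i => (X i : MvPolynomial (Fin 4) R)) = L3 at h3 ⊢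
  have h4 : ∀ (a : R) {A B D E : MvPolynomial (Fin 4) R}, A.IsHomogeneous 1 → B.IsHomogeneous 1 → D.IsHomogeneous 1 →
      E.IsHomogeneous 1 → (C a * (A * B * D * E)).IsHomogeneous 4 := by
    intro a A B D E hA hB hD hE
    simpa using (isHomogeneous_C (Fin 4) a).mul (((hA.mul hB).mul hD).mul hE)
  have e : fn (fun i => C (g i)) (fun i => C (c i)) (fun i => C (r i)) L0 L1 L2 L3 =
      C (g 0) * (L0 * L0 * L1 * L1) + C (g 1) * (L0 * L0 * L2 * L2) + C (g 2) * (L0 * L1 * L2 * L2) + C (g 3) * (L1 * L1 * L2 * L2) +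
      C (g 4) * (L0 * L2 * L2 * L2) + C (g 5) * (L1 * L2 * L2 * L2) + C (g 6) * (L2 * L2 * L2 * L2) +
      C (c 0) * (L0 * L0 * L0 * L3) + C (c 1) * (L0 * L0 * L1 * L3) + C (c 2) * (L0 * L1 * L1 * L3) + C (c 3) * (L1 * L1 * L1 * L3) +
      C (c 4) * (L0 * L0 * L2 * L3) + C (c 5) * (L0 * L1 * L2 * L3) + C (c 6) * (L1 * L1 * L2 * L3) + C (c 7) * (L0 * L2 * L2 * L3) +
      C (c 8) * (L1 * L2 * L2 * L3) + C (c 9) * (L2 * L2 * L2 * L3) +
      C (r 0) * (L0 * L0 * L3 * L3) + C (r 1) * (L0 * L1 * L3 * L3) + C (r 2) * (L0 * L2 * L3 * L3) + C (r 3) * (L0 * L3 * L3 * L3) +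
      C (r 4) * (L1 * L1 * L3 * L3) + C (r 5) * (L1 * L2 * L3 * L3) + C (r 6) * (L1 * L3 * L3 * L3) + C (r 7) * (L2 * L2 * L3 * L3) +
      C (r 8) * (L2 * L3 * L3 * L3) + C (r 9) * (L3 * L3 * L3 * L3) := by
    unfold fn
    ring
  rw [e]
  repeat' apply IsHomogeneous.add
  all_goals exact h4 _ (by assumption) (by assumption) (by assumption) (by assumption)

theorem mem_ex4 (m : Fin 4 →₀ ℕ) : m ∈ ex4 ↔ m.degree = 4 := by
  unfold ex4
  rw [Finset.mem_finsuppAntidiag, Finsupp.degree_eq_sum]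
  constructor
  · rintro ⟨h, -⟩
    exact h
  · intro h
    exact ⟨h, Finset.subset_univ _⟩

theorem coeff_FF (u : Fin 9 → R) (g : Fin 7 → R) (c r : Fin 10 → R) {m : Fin 4 →₀ ℕ} (hm : m ∉ ex4) :
    coeff m (FF u g c r) = 0 := by
  by_contra h
  have := FF_hom u g c r h
  rw [mem_ex4] at hm
  apply hm
  refine Eq.trans ?_ this
  rw [Finsupp.degree_eq_weight_one]
  rfl

theorem sum_FF (u : Fin 9 → R) (g : Fin 7 → R) (c r : Fin 10 → R) :
    ∑ m : Mo4, monomial m.1 (coeff m.1 (FF u g c r)) = FF u g c r := by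
  classical
  ext n
  rw [coeff_sum]
  simp only [coeff_monomial]
  by_cases hn : n ∈ ex4
  · rw [Finset.sum_eq_single (⟨n, hn⟩ : Mo4)]
    · simp
    · intro b _ hb
      rw [if_neg]
      intro h
      exact hb (Subtype.ext h)
    · simp
  · rw [coeff_FF u g c r hn]
    refine Finset.sum_eq_zero fun b _ => ?_
    rw [if_neg]
    intro h
    exact hn (h ▸ b.2)

end

end H77.QS
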