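import Pool.Agent.H77.QS.Kp
import Pool.Agent.H77.QS.Hom

/-! # QS.Frm : the frame and its point -/

namespace H77.QS

open H8.QS Polynomial

section
variable {Ω : Type} [Field Ω] [CharZero Ω] {v : Fin 37 → Ω} [Algebra U4 Ω]
  (hFU : MvPolynomial.map (algebraMap U4 Ω) fU = FF (pU v) (pG v) (pC v) (pR v))

include hFU

theorem ev_fU {R : Type} [CommRing R] [Algebra U4 R] [Algebra Ω R] [IsScalarTower U4 Ω R] (w : Fin 4 → R) :
    ev fU w = fu (fun k => algebraMap Ω R (pU v k)) (fun i => algebraMap Ω R (pG v i)) (fun i => algebraMap Ω R (pC v i))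
      (fun i => algebraMap Ω R (pR v i)) w := by
  unfold ev
  rw [← MvPolynomial.aeval_map_algebraMap (R := U4) Ω w fU, hFU, aeval_FF]

theorem ev_fU' (w : Fin 4 → Ω) : ev fU w = fu (pU v) (pG v) (pC v) (pR v) w := ev_fU hFU w

/-- the Taylor coefficients at the first node -/
theorem lin_fU {R : Type} [CommRing R] [Algebra U4 R] [Algebra Ω R] [IsScalarTower U4 Ω R] {x u : Fin 4 → R} {p q : R}
    (hx : ∀ i, ul (fun k => algebraMap Ω R (pU v k)) i x = if i = 0 then 1 else 0)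
    (hu : ∀ i, ul (fun k => algebraMap Ω R (pU v k)) i u = ![0, p, q, 0] i) :
    lin fU x u = C (algebraMap Ω R (pG v 0) * p ^ 2 + algebraMap Ω R (pG v 1) * q ^ 2) * X ^ 2 +
      C (algebraMap Ω R (pG v 2) * p * q ^ 2 + algebraMap Ω R (pG v 4) * q ^ 3) * X ^ 3 +
      C (algebraMap Ω R (pG v 3) * p ^ 2 * q ^ 2 + algebraMap Ω R (pG v 5) * p * q ^ 3 + algebraMap Ω R (pG v 6) * q ^ 4) * X ^ 4 := by
  have h : lin fU x u = ev fU (fun i => C (x i) + C (u i) * X) := rfl
  rw [h, ev_fU hFU]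
  have hul : ∀ i, ul (fun k => algebraMap Ω R[X] (pU v k)) i (fun i => C (x i) + C (u i) * X) =
      C (if i = 0 then 1 else 0) + C (![0, p, q, 0] i) * X := by
    intro i
    rw [← hx i, ← hu i, ul_map C, ul_map C]
    have e : (fun k => algebraMap Ω R[X] (pU v k)) = fun k => C (algebraMap Ω R (pU v k)) := rfl
    rw [e, ul_eq, ul_eq, ul_eq, Finset.sum_mul, ← Finset.sum_add_distrib]
    exact Finset.sum_congr rfl fun j _ => by ring
  unfold fu
  rw [hul, hul, hul, hul]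
  have e : ∀ a : Ω, algebraMap Ω R[X] a = C (algebraMap Ω R a) := fun _ => rfl
  simp only [e]
  unfold fn
  simp only [Matrix.cons_val_zero, Matrix.cons_val_one, Matrix.cons_val, Fin.isValue, if_true, Fin.reduceEq, if_false, map_zero,
    map_one, zero_mul, add_zero, zero_add, map_add, map_mul, map_pow, one_pow, mul_one]
  ring

theorem qc_fU {R : Type} [CommRing R] [Algebra U4 R] [Algebra Ω R] [IsScalarTower U4 Ω R] {x u : Fin 4 → R} {p q : R}
    (hx : ∀ i, ul (fun k => algebraMap Ω R (pU v k)) i x = if i = 0 then 1 else 0)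
    (hu : ∀ i, ul (fun k => algebraMap Ω R (pU v k)) i u = ![0, p, q, 0] i) :
    qc fU x u 2 = algebraMap Ω R (pG v 0) * p ^ 2 + algebraMap Ω R (pG v 1) * q ^ 2 ∧
    qc fU x u 3 = algebraMap Ω R (pG v 2) * p * q ^ 2 + algebraMap Ω R (pG v 4) * q ^ 3 ∧
    qc fU x u 4 = algebraMap Ω R (pG v 3) * p ^ 2 * q ^ 2 + algebraMap Ω R (pG v 5) * p * q ^ 3 + algebraMap Ω R (pG v 6) * q ^ 4 := by
  unfold qc
  rw [lin_fU hFU hx hu]
  refine ⟨?_, ?_, ?_⟩ <;> simp only [coeff_add, coeff_C_mul, coeff_X_pow] <;> norm_num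

theorem dv_fU {R : Type} [CommRing R] [Algebra U4 R] [Algebra Ω R] [IsScalarTower U4 Ω R] {x u : Fin 4 → R} {p q : R}
    (hx : ∀ i, ul (fun k => algebraMap Ω R (pU v k)) i x = if i = 0 then 1 else 0)
    (hu : ∀ i, ul (fun k => algebraMap Ω R (pU v k)) i u = ![0, p, q, 0] i) :
    dv fU x u = q ^ 2 * qv (fun i => algebraMap Ω R (qq (pG v) i)) p q := by
  obtain ⟨h2, h3, h4⟩ := qc_fU hFU hx hu
  unfold dv
  rw [h2, h3, h4]
  unfold qv
  simp only [qq_map]
  unfold qq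
  simp only [Matrix.cons_val_zero, Matrix.cons_val_one, Matrix.cons_val]
  ring

theorem dg_fU (x u : Fin 4 → Ω) : dg fU x u =
    fnX (pG v) (pC v) (pR v) (ul (pU v) 0 x) (ul (pU v) 1 x) (ul (pU v) 2 x) (ul (pU v) 3 x) * ul (pU v) 0 u +
    fnY (pG v) (pC v) (pR v) (ul (pU v) 0 x) (ul (pU v) 1 x) (ul (pU v) 2 x) (ul (pU v) 3 x) * ul (pU v) 1 u +
    fnZ (pG v) (pC v) (pR v) (ul (pU v) 0 x) (ul (pU v) 1 x) (ul (pU v) 2 x) (ul (pU v) 3 x) * ul (pU v) 2 u +
    fnW (pG v) (pC v) (pR v) (ul (pU v) 0 x) (ul (pU v) 1 x) (ul (pU v) 2 x) (ul (pU v) 3 x) * ul (pU v) 3 u := by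
  have h : ∀ i, ev (MvPolynomial.pderiv i fU) x = MvPolynomial.eval x (MvPolynomial.pderiv i (FF (pU v) (pG v) (pC v) (pR v))) := by
    intro i
    unfold ev
    rw [← hFU, MvPolynomial.pderiv_map, MvPolynomial.eval_map, MvPolynomial.aeval_def]
  unfold dg
  simp only [h, pderiv_FF, ul_eq]
  rw [Finset.mul_sum, Finset.mul_sum, Finset.mul_sum, Finset.mul_sum, ← Finset.sum_add_distrib, ← Finset.sum_add_distrib,
    ← Finset.sum_add_distrib]
  exact Finset.sum_congr rfl fun i _ => by ring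

end

section
variable {Ω : Type} [Field Ω] [CharZero Ω] {v : Fin 37 → Ω}

/-- the vector with given coordinates in the normal form -/
noncomputable def vec (v : Fin 37 → Ω) (z : Fin 4 → Ω) : Fin 4 → Ω := (vm (pU v)).mulVec z

theorem ul_vec (hdl : dl (pU v) ≠ 0) (z : Fin 4 → Ω) (i : Fin 4) : ul (pU v) i (vec v z) = z i := by
  unfold ul vec
  rw [Matrix.mulVec_mulVec, um_vm hdl, Matrix.one_mulVec]

theorem vec_inj (hdl : dl (pU v) ≠ 0) : Function.Injective (vec v) := by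
  intro z z' h
  funext i
  rw [← ul_vec hdl z i, ← ul_vec hdl z' i, h]

theorem vec_add (z z' : Fin 4 → Ω) : vec v (z + z') = vec v z + vec v z' := Matrix.mulVec_add _ _ _

theorem vec_smul (a : Ω) (z : Fin 4 → Ω) : vec v (a • z) = a • vec v z := Matrix.mulVec_smul _ _ _

/-- the vectors of the frame -/
noncomputable def fx (v : Fin 37 → Ω) : Fin 4 → Ω := vec v ![1, 0, 0, 0]

noncomputable def fd (r : FD v) : Fin 4 → Ω := vec v ![0, r.d1, r.d2, 0]

noncomputable def fe (r : FD v) : Fin 4 → Ω := vec v ![0, r.e1, r.e2, 0]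

theorem ind_fr (hdl : dl (pU v) ≠ 0) (r : FD v) : Ind (fx v) (fd r) (fe r) := by
  unfold Ind
  rw [Fintype.linearIndependent_iff]
  intro c hc
  rw [Fin.sum_univ_three] at hc
  simp only [Matrix.cons_val_zero, Matrix.cons_val_one, Matrix.cons_val] at hc
  unfold fx fd fe at hc
  rw [← vec_smul, ← vec_smul, ← vec_smul, ← vec_add, ← vec_add] at hc
  have h0 : vec v (0 : Fin 4 → Ω) = 0 := Matrix.mulVec_zero _
  have h := vec_inj hdl (hc.trans h0.symm)
  have e0 := congrFun h 0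
  have e1 := congrFun h 1
  have e2 := congrFun h 2
  simp at e0 e1 e2
  have h1 : c 1 * (r.d1 * r.e2 - r.d2 * r.e1) = 0 := by linear_combination r.e2 * e1 - r.e1 * e2
  have h2 : c 2 * (r.d1 * r.e2 - r.d2 * r.e1) = 0 := by linear_combination -r.d2 * e1 + r.d1 * e2
  intro i
  fin_cases i
  · exact e0
  · exact (mul_eq_zero.1 h1).resolve_right r.det
  · exact (mul_eq_zero.1 h2).resolve_right r.det

/-- the frame -/
noncomputable def frm [Algebra U4 Ω] (hdl : dl (pU v) ≠ 0)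
    (hFU : MvPolynomial.map (algebraMap U4 Ω) fU = FF (pU v) (pG v) (pC v) (pR v)) (r : FD v) : Fr fU Ω where
  x := fx v
  d := fd r
  e := fe r
  s := r.σ * r.d2
  t := r.σ * r.e2
  a := r.a
  b := r.b
  onx := by
    rw [ev_fU' hFU]
    unfold fu fx
    simp only [ul_vec hdl]
    unfold fn
    simp
  tgd := by
    rw [dg_fU hFU]
    unfold fx fd
    simp only [ul_vec hdl]
    unfold fnX fnY fnZ fnW
    simp
  tge := by
    rw [dg_fU hFU]
    unfold fx fe
    simp only [ul_vec hdl]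
    unfold fnX fnY fnZ fnW
    simp
  line := by
    unfold dp
    have hC : ∀ a : Ω, algebraMap Ω (Polynomial Ω) a = C a := fun _ => rfl
    rw [dv_fU hFU (R := (Polynomial Ω)) (p := C r.d1 * X + C r.e1) (q := C r.d2 * X + C r.e2)]
    · simp only [hC]
      rw [r.line]
      simp only [C_mul, C_pow]
      ring
    · intro i
      have := ul_map C (pU v) i (fx v)
      unfold fx at this ⊢
      rw [ul_vec hdl] at this
      refine Eq.trans this.symm ?_
      fin_cases i <;> simp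
    · intro i
      have h1 := ul_map C (pU v) i (fd r)
      have h2 := ul_map C (pU v) i (fe r)
      unfold fd at h1 ⊢
      unfold fe at h2 ⊢
      rw [ul_vec hdl] at h1 h2
      have h3 : ul (fun k => algebraMap Ω (Polynomial Ω) (pU v k)) i (fun i => C (vec v ![0, r.d1, r.d2, 0] i) * X + C (vec v ![0, r.e1, r.e2, 0] i)) =
          C (![0, r.d1, r.d2, 0] i) * X + C (![0, r.e1, r.e2, 0] i) := by
        rw [h1, h2, ul_eq, ul_eq, ul_eq, Finset.sum_mul, ← Finset.sum_add_distrib]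
        exact Finset.sum_congr rfl fun j _ => by
          simp only [hC]
          ring
      rw [h3]
      fin_cases i <;> simp
  disc := r.disc

theorem frm_nd [Algebra U4 Ω] (hdl : dl (pU v) ≠ 0)
    (hFU : MvPolynomial.map (algebraMap U4 Ω) fU = FF (pU v) (pG v) (pC v) (pR v)) (r : FD v) : (frm hdl hFU r).Nd := ind_fr hdl r

theorem frm_on [Algebra U4 Ω] (hv : IsTranscendenceBasis ℚ v)
    (hFU : MvPolynomial.map (algebraMap U4 Ω) fU = FF (pU v) (pG v) (pC v) (pR v)) (r : FD v) (y : Ω)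
    (hy : y ^ 2 = v 36 ^ 3 - 3 * r.a * v 36 - 2 * r.b) : OnF (frm (dl_ne hv) hFU r) (v 36) y (r.p y) := by
  have hdl := dl_ne hv
  have hw := r.w2 y hy
  have hid : ∀ a : Ω, algebraMap Ω Ω a = a := fun _ => rfl
  have hx : ∀ i, ul (fun k => algebraMap Ω Ω (pU v k)) i (fx v) = if i = 0 then 1 else 0 := by
    intro i
    change ul (pU v) i (vec v ![1, 0, 0, 0]) = _
    rw [ul_vec hdl]
    fin_cases i <;> simp
  have hu : ∀ i, ul (fun k => algebraMap Ω Ω (pU v k)) i (lc (v 36) 1 (fd r) (fe r)) = ![0, r.u1, r.u2, 0] i := by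
    intro i
    have e : lc (v 36) 1 (fd r) (fe r) = vec v ![0, r.u1, r.u2, 0] := by
      have : (![0, r.u1, r.u2, 0] : Fin 4 → Ω) = v 36 • ![0, r.d1, r.d2, 0] + (1 : Ω) • ![0, r.e1, r.e2, 0] := by
        unfold FD.u1 FD.u2
        funext i
        fin_cases i <;> simp
      rw [this, vec_add, vec_smul, vec_smul]
      rfl
    change ul (pU v) i _ = _
    rw [e, ul_vec hdl]
  obtain ⟨h2, h3, h4⟩ := qc_fU hFU hx hu
  have h2' : qc fU (fx v) (lc (v 36) 1 (fd r) (fe r)) 2 = r.q2 := h2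
  have h3' : qc fU (fx v) (lc (v 36) 1 (fd r) (fe r)) 3 = r.q3 := h3
  have h4' : qc fU (fx v) (lc (v 36) 1 (fd r) (fe r)) 4 = r.q4 := h4
  refine ⟨r.w y - r.q3, 2 * r.q2, Or.inr (mul_ne_zero two_ne_zero (FD.q2_ne hv r)), ?_, ?_, ?_⟩
  · have e1 : r.z y = (r.w y - r.q3) • ![1, 0, 0, 0] + (2 * r.q2) • ![0, r.u1, r.u2, 0] := by
      unfold FD.z
      funext i
      fin_cases i <;> simp
    have e : lc (v 36) 1 (fd r) (fe r) = vec v ![0, r.u1, r.u2, 0] := by
      have : (![0, r.u1, r.u2, 0] : Fin 4 → Ω) = v 36 • ![0, r.d1, r.d2, 0] + (1 : Ω) • ![0, r.e1, r.e2, 0] := by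
        unfold FD.u1 FD.u2
        funext i
        fin_cases i <;> simp
      rw [this, vec_add, vec_smul, vec_smul]
      rfl
    change vec v (r.z y) = lc _ _ (fx v) (lc (v 36) 1 (fd r) (fe r))
    rw [e, e1, vec_add, vec_smul, vec_smul]
    rfl
  · change 2 * qc fU (fx v) (lc (v 36) 1 (fd r) (fe r)) 2 * _ + (qc fU (fx v) (lc (v 36) 1 (fd r) (fe r)) 3 - r.w y) * _ = 0
    rw [h2', h3']
    ring
  · change (qc fU (fx v) (lc (v 36) 1 (fd r) (fe r)) 3 + r.w y) * _ + 2 * qc fU (fx v) (lc (v 36) 1 (fd r) (fe r)) 4 * _ = 0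
    rw [h3', h4']
    linear_combination hw

end

end H77.QS
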