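import Pool.Agent.H77.QS.Def

/-! # QS.Frq : the normal form of a binary quartic with distinct roots over an algebraically closed field -/

namespace H77.QS

open Polynomial

section
variable {K : Type} [Field K]

/-- the conclusion -/
def FrQ (q : Fin 5 → K) : Prop :=
  ∃ d1 d2 e1 e2 c a b : K, d1 * e2 - d2 * e1 ≠ 0 ∧ c ≠ 0 ∧ b ^ 2 - a ^ 3 = 1 ∧
    a ^ 3 * (iJ q ^ 2 - 4 * iI q ^ 3) = 4 * iI q ^ 3 ∧
    qv (fun i => C (q i)) (C d1 * X + C e1) (C d2 * X + C e2) = C c * (X ^ 3 - C (3 * a) * X - C (2 * b))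

/-- substitution `x → x + ρ y` -/
def shr (q : Fin 5 → K) (ρ : K) : Fin 5 → K :=
  ![q 0, 4 * ρ * q 0 + q 1, 6 * ρ ^ 2 * q 0 + 3 * ρ * q 1 + q 2, 4 * ρ ^ 3 * q 0 + 3 * ρ ^ 2 * q 1 + 2 * ρ * q 2 + q 3,
    ρ ^ 4 * q 0 + ρ ^ 3 * q 1 + ρ ^ 2 * q 2 + ρ * q 3 + q 4]

/-- exchange of the variables -/
def swp (q : Fin 5 → K) : Fin 5 → K := ![q 4, q 3, q 2, q 1, q 0]

theorem iI_shr (q : Fin 5 → K) (ρ : K) : iI (shr q ρ) = iI q := by
  unfold iI shr
  simp only [Matrix.cons_val_zero, Matrix.cons_val_one, Matrix.cons_val]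
  ring

theorem iJ_shr (q : Fin 5 → K) (ρ : K) : iJ (shr q ρ) = iJ q := by
  unfold iJ shr
  simp only [Matrix.cons_val_zero, Matrix.cons_val_one, Matrix.cons_val]
  ring

theorem iI_swp (q : Fin 5 → K) : iI (swp q) = iI q := by
  unfold iI swp
  simp only [Matrix.cons_val_zero, Matrix.cons_val_one, Matrix.cons_val]
  ring

theorem iJ_swp (q : Fin 5 → K) : iJ (swp q) = iJ q := by
  unfold iJ swp
  simp only [Matrix.cons_val_zero, Matrix.cons_val_one, Matrix.cons_val]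
  ring

theorem of_shr {q : Fin 5 → K} (ρ : K) (h : FrQ (shr q ρ)) : FrQ q := by
  obtain ⟨d1, d2, e1, e2, c, a, b, h1, h2, h3, h4, h5⟩ := h
  rw [iI_shr, iJ_shr] at h4
  refine ⟨d1 + ρ * d2, d2, e1 + ρ * e2, e2, c, a, b, ?_, h2, h3, h4, ?_⟩
  · intro h
    exact h1 (by linear_combination h)
  · rw [← h5]
    unfold qv shr
    simp only [Matrix.cons_val_zero, Matrix.cons_val_one, Matrix.cons_val, map_add, map_mul, map_pow, map_ofNat]
    ring

theorem of_swp {q : Fin 5 → K} (h : FrQ (swp q)) : FrQ q := by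
  obtain ⟨d1, d2, e1, e2, c, a, b, h1, h2, h3, h4, h5⟩ := h
  rw [iI_swp, iJ_swp] at h4
  refine ⟨d2, d1, e2, e1, c, a, b, ?_, h2, h3, h4, ?_⟩
  · intro h
    exact h1 (by linear_combination -h)
  · rw [← h5]
    unfold qv swp
    simp only [Matrix.cons_val_zero, Matrix.cons_val_one, Matrix.cons_val]
    ring

variable [IsAlgClosed K] [CharZero K]

theorem frq0 {q : Fin 5 → K} (h0 : q 0 = 0) (h2 : q 2 = 0) (h : iJ q ^ 2 - 4 * iI q ^ 3 ≠ 0) : FrQ q := by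
  have hJI : iJ q ^ 2 - 4 * iI q ^ 3 = 27 * q 1 ^ 3 * (27 * q 1 * q 4 ^ 2 + 4 * q 3 ^ 3) := by
    unfold iI iJ
    rw [h0, h2]
    ring
  have hI : iI q = -3 * q 1 * q 3 := by
    unfold iI
    rw [h0, h2]
    ring
  have hq1 : q 1 ≠ 0 := by
    intro h1
    apply h
    rw [hJI, h1]
    ring
  have hd : 27 * q 1 * q 4 ^ 2 + 4 * q 3 ^ 3 ≠ 0 := by
    intro h1
    apply h
    rw [hJI, h1]
    ring
  obtain ⟨κ, hκ⟩ := IsAlgClosed.exists_pow_nat_eq ((27 * q 1 * q 4 ^ 2 + 4 * q 3 ^ 3) / (108 * q 1 ^ 3)) (n := 6) (by norm_num)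
  have h108 : (108 : K) * q 1 ^ 3 ≠ 0 := mul_ne_zero (by norm_num) (pow_ne_zero 3 hq1)
  have hκ0 : κ ≠ 0 := by
    rintro rfl
    rw [zero_pow (by norm_num)] at hκ
    exact (div_ne_zero hd h108) hκ.symm
  have hκ' : κ ^ 6 * (108 * q 1 ^ 3) = 27 * q 1 * q 4 ^ 2 + 4 * q 3 ^ 3 := by
    rw [hκ, div_mul_cancel₀ _ h108]
  refine ⟨κ, 0, 0, 1, q 1 * κ ^ 3, -(q 3) / (3 * q 1 * κ ^ 2), -(q 4) / (2 * q 1 * κ ^ 3), ?_, ?_, ?_, ?_, ?_⟩
  · rw [mul_one, zero_mul, sub_zero]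
    exact hκ0
  · exact mul_ne_zero hq1 (pow_ne_zero 3 hκ0)
  · field_simp
    linear_combination (-1 : K) * hκ'
  · rw [hJI, hI]
    field_simp
    linear_combination (27 * q 3 ^ 3 : K) * hκ'
  · unfold qv
    beta_reduce
    rw [h0, h2]
    have e1 : C (3 * (-(q 3) / (3 * q 1 * κ ^ 2))) * C (q 1 * κ ^ 3) = -(C (q 3) * C κ) := by
      rw [← C_mul, ← C_mul, ← C_neg]
      congr 1
      field_simp
    have e2 : C (2 * (-(q 4) / (2 * q 1 * κ ^ 3))) * C (q 1 * κ ^ 3) = -C (q 4) := by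
      rw [← C_mul, ← C_neg]
      congr 1
      field_simp
    have e3 : C (q 1 * κ ^ 3) = C (q 1) * C κ ^ 3 := by rw [C_mul, C_pow]
    simp only [C_0, C_1, zero_mul, add_zero, zero_add, mul_one, one_pow]
    linear_combination X * e1 + e2 - X ^ 3 * e3

theorem frq {q : Fin 5 → K} (h : iJ q ^ 2 - 4 * iI q ^ 3 ≠ 0) : FrQ q := by
  -- the case q0 = 0
  have hA : ∀ q : Fin 5 → K, iJ q ^ 2 - 4 * iI q ^ 3 ≠ 0 → q 0 = 0 → FrQ q := by
    intro q h h0
    have hq1 : q 1 ≠ 0 := by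
      intro h1
      apply h
      unfold iI iJ
      rw [h0, h1]
      ring
    refine of_shr (-(q 2) / (3 * q 1)) (frq0 ?_ ?_ ?_)
    · unfold shr
      simpa using h0
    · unfold shr
      simp only [Matrix.cons_val]
      rw [h0]
      field_simp
      ring
    · rw [iI_shr, iJ_shr]
      exact h
  by_cases h0 : q 0 = 0
  · exact hA q h h0
  · have hdeg : (C (q 0) * X ^ 4 + C (q 1) * X ^ 3 + C (q 2) * X ^ 2 + C (q 3) * X + C (q 4) : K[X]).degree ≠ 0 := by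
      have : (C (q 0) * X ^ 4 + C (q 1) * X ^ 3 + C (q 2) * X ^ 2 + C (q 3) * X + C (q 4) : K[X]).degree = 4 := by
        compute_degree!
      rw [this]
      norm_num
    obtain ⟨ρ, hρ⟩ := IsAlgClosed.exists_root _ hdeg
    refine of_shr ρ (of_swp (hA _ ?_ ?_))
    · rw [iI_swp, iJ_swp, iI_shr, iJ_shr]
      exact h
    · unfold swp shr
      simp only [Matrix.cons_val_zero, Matrix.cons_val]
      simp only [IsRoot.def, eval_add, eval_mul, eval_C, eval_pow, eval_X] at hρ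
      linear_combination hρ

end

end H77.QS
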