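import Pool.Agent.H77.QS.Par
import Pool.Agent.H77.QS.Frq

/-! # QS.Inv : the inverse of the change of coordinates; the frame of the residual quartic over the parameters -/

namespace H77.QS

open Polynomial

section
variable {F : Type} [Field F]

/-- the inverse of `um u` -/
noncomputable def vm (u : Fin 9 → F) : Matrix (Fin 4) (Fin 4) F :=
  !![(1 - u 3 * u 5) * (dl u)⁻¹, (u 1 * u 5 - u 0) * (dl u)⁻¹, (u 0 * u 3 - u 1) * (dl u)⁻¹, 0;
     (u 3 * u 4 - u 2) * (dl u)⁻¹, (1 - u 1 * u 4) * (dl u)⁻¹, (u 1 * u 2 - u 3) * (dl u)⁻¹, 0;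
     (u 2 * u 5 - u 4) * (dl u)⁻¹, (u 0 * u 4 - u 5) * (dl u)⁻¹, (1 - u 0 * u 2) * (dl u)⁻¹, 0;
     -(u 6 * (1 - u 3 * u 5) + u 7 * (u 3 * u 4 - u 2) + u 8 * (u 2 * u 5 - u 4)) * (dl u)⁻¹,
     -(u 6 * (u 1 * u 5 - u 0) + u 7 * (1 - u 1 * u 4) + u 8 * (u 0 * u 4 - u 5)) * (dl u)⁻¹,
     -(u 6 * (u 0 * u 3 - u 1) + u 7 * (u 1 * u 2 - u 3) + u 8 * (1 - u 0 * u 2)) * (dl u)⁻¹, 1]

theorem um_vm {u : Fin 9 → F} (h : dl u ≠ 0) : um u * vm u = 1 := by
  have ht : (dl u) * (dl u)⁻¹ = 1 := mul_inv_cancel₀ h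
  unfold vm
  generalize (dl u)⁻¹ = t at ht ⊢
  unfold dl at ht
  ext i j
  rw [Matrix.mul_apply, Fin.sum_univ_four]
  unfold um
  fin_cases i <;> fin_cases j <;> simp only [Matrix.of_apply, Matrix.cons_val_zero, Matrix.cons_val_one, Matrix.cons_val,
    Matrix.cons_val', Fin.zero_eta, Fin.mk_one, Fin.reduceFinMk, Matrix.one_apply, Fin.isValue, Fin.reduceEq, if_true, if_false,
    Matrix.cons_val_fin_one] <;> first | ring1 | linear_combination ht

end

section
variable {Ω : Type} [Field Ω] [CharZero Ω]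

/-- the frame of the residual quartic -/
structure FD (v : Fin 37 → Ω) where
  d1 : Ω
  d2 : Ω
  e1 : Ω
  e2 : Ω
  σ : Ω
  a : Ω
  b : Ω
  alg : ∀ x ∈ ({d1, d2, e1, e2, σ, a, b} : Set Ω), IsAlgebraic (IntermediateField.adjoin ℚ (Set.range (pG v))) x
  det : d1 * e2 - d2 * e1 ≠ 0
  hσ : σ ≠ 0
  disc : b ^ 2 - a ^ 3 = 1
  mod : a ^ 3 * (iJ (qq (pG v)) ^ 2 - 4 * iI (qq (pG v)) ^ 3) = 4 * iI (qq (pG v)) ^ 3
  line : qv (fun i => C (qq (pG v) i)) (C d1 * X + C e1) (C d2 * X + C e2) = C (σ ^ 2) * (X ^ 3 - C (3 * a) * X - C (2 * b))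

theorem ex_fd [IsAlgClosed Ω] {v : Fin 37 → Ω} (hv : IsTranscendenceBasis ℚ v) : Nonempty (FD v) := by
  let k := IntermediateField.adjoin ℚ (Set.range (pG v))
  let K := algebraicClosure k Ω
  have hK : IsAlgClosed K := (algebraicClosure.isAlgClosure k Ω).isAlgClosed
  have hcK : CharZero K := charZero_of_injective_algebraMap (R := ℚ) (algebraMap ℚ K).injective
  let φ : K →+* Ω := algebraMap K Ω
  have hφ : Function.Injective φ := φ.injective
  let g : Fin 7 → K := fun i => algebraMap k K ⟨pG v i, IntermediateField.subset_adjoin _ _ ⟨i, rfl⟩⟩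
  have hg : (fun i => φ (g i)) = pG v := by
    funext i
    rfl
  have hI : φ (iI (qq g)) = iI (qq (pG v)) := by
    rw [iI_map]
    simp only [qq_map, hg]
  have hJ : φ (iJ (qq g)) = iJ (qq (pG v)) := by
    rw [iJ_map]
    simp only [qq_map, hg]
  have hd : iJ (qq g) ^ 2 - 4 * iI (qq g) ^ 3 ≠ 0 := by
    intro h
    have := congrArg φ h
    rw [map_sub, map_mul, map_pow, map_pow, hI, hJ, map_ofNat, map_zero] at this
    exact dis_ne hv this
  obtain ⟨d1, d2, e1, e2, c, a, b, h1, h2, h3, h4, h5⟩ := frq hd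
  obtain ⟨σ, hσ⟩ := IsAlgClosed.exists_pow_nat_eq c (n := 2) (by norm_num)
  refine ⟨⟨φ d1, φ d2, φ e1, φ e2, φ σ, φ a, φ b, ?_, ?_, ?_, ?_, ?_, ?_⟩⟩
  · intro x hx
    have hmem : ∀ y : K, IsAlgebraic k (φ y) := fun y => (algebraicClosure.isAlgebraic k Ω).isAlgebraic y |>.algebraMap
    simp only [Set.mem_insert_iff, Set.mem_singleton_iff] at hx
    rcases hx with rfl | rfl | rfl | rfl | rfl | rfl | rfl <;> exact hmem _
  · intro h
    apply h1
    apply hφ
    rw [map_zero, map_sub, map_mul, map_mul, h]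
  · intro h
    apply h2
    rw [← hσ, hφ (h.trans (map_zero φ).symm)]
    ring
  · rw [← map_pow, ← map_pow, ← map_sub, h3, map_one]
  · have := congrArg φ h4
    simp only [map_mul, map_sub, map_pow, map_ofNat, hI, hJ] at this
    exact this
  · have := congrArg (Polynomial.map φ) h5
    have hq : ∀ i, φ (qq g i) = qq (pG v) i := by
      intro i
      rw [qq_map, hg]
    have e3 : φ (3 * a) = 3 * φ a := by rw [map_mul, map_ofNat]
    have e2' : φ (2 * b) = 2 * φ b := by rw [map_mul, map_ofNat]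
    rw [← hσ] at this
    unfold qv at this ⊢
    simp only [Polynomial.map_add, Polynomial.map_mul, Polynomial.map_pow, Polynomial.map_C, Polynomial.map_X,
      Polynomial.map_sub, hq, e3, e2'] at this ⊢
    rw [map_pow φ σ 2] at this
    exact this

end

end H77.QS
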