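import Pool.Agent.H77.QS.Cmp

/-! # QS.Kil : a derivation which kills the coefficients of the form and does not move the bitangent plane kills all parameters -/

namespace H77.QS

open MvPolynomial

section
variable {F : Type} [Field F] [CharZero F]

theorem fn_zero {g : Fin 7 → F} {c r : Fin 10 → F} (h : ∀ X Y Z W : F, fn g c r X Y Z W = 0) :
    (∀ i, g i = 0) ∧ (∀ i, c i = 0) ∧ (∀ i, r i = 0) := by
  have hW := fun X Y Z : F => cubic2
    (a0 := g 0 * X ^ 2 * Y ^ 2 + Z ^ 2 * (g 1 * X ^ 2 + g 2 * X * Y + g 3 * Y ^ 2) + Z ^ 3 * (g 4 * X + g 5 * Y) + g 6 * Z ^ 4)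
    (a1 := c 0 * X ^ 3 + c 1 * X ^ 2 * Y + c 2 * X * Y ^ 2 + c 3 * Y ^ 3 + c 4 * X ^ 2 * Z + c 5 * X * Y * Z + c 6 * Y ^ 2 * Z +
      c 7 * X * Z ^ 2 + c 8 * Y * Z ^ 2 + c 9 * Z ^ 3)
    (a2 := r 0 * X ^ 2 + r 1 * X * Y + r 2 * X * Z + r 4 * Y ^ 2 + r 5 * Y * Z + r 7 * Z ^ 2)
    (a3 := r 3 * X + r 6 * Y + r 8 * Z) (a4 := r 9)
    (fun W => by
      have := h X Y Z W
      unfold fn at this
      linear_combination this)
  have q0 := quart3 (a0 := 0) (a1 := 0) (a2 := g 6) (a3 := 0) (a4 := g 0) (a5 := 0) (a6 := 0) (a7 := g 1) (a8 := g 4) (a9 := 0)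
    (a10 := g 3) (a11 := g 5) (a12 := 0) (a13 := 0) (a14 := g 2) (fun X Y Z => by linear_combination (hW X Y Z).1)
  have q1 := quart3 (a0 := 0) (a1 := 0) (a2 := c 9) (a3 := 0) (a4 := 0) (a5 := 0) (a6 := c 0) (a7 := c 4) (a8 := c 7) (a9 := c 3)
    (a10 := c 6) (a11 := c 8) (a12 := c 1) (a13 := c 2) (a14 := c 5) (fun X Y Z => by linear_combination Z * (hW X Y Z).2.1)
  have q2 := quart3 (a0 := 0) (a1 := 0) (a2 := r 7) (a3 := 0) (a4 := 0) (a5 := 0) (a6 := 0) (a7 := r 0) (a8 := r 2) (a9 := 0)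
    (a10 := r 4) (a11 := r 5) (a12 := 0) (a13 := 0) (a14 := r 1) (fun X Y Z => by linear_combination Z ^ 2 * (hW X Y Z).2.2.1)
  have q3 := quart3 (a0 := 0) (a1 := 0) (a2 := r 8) (a3 := 0) (a4 := 0) (a5 := 0) (a6 := 0) (a7 := 0) (a8 := r 3) (a9 := 0)
    (a10 := 0) (a11 := r 6) (a12 := 0) (a13 := 0) (a14 := 0) (fun X Y Z => by linear_combination Z ^ 3 * (hW X Y Z).2.2.2.1)
  have q4 := (hW 0 0 0).2.2.2.2
  obtain ⟨⟨-, -, a2, -, a4⟩, ⟨-, -, a7, a8, -⟩, ⟨a10, a11, -, -, a14⟩⟩ := q0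
  obtain ⟨⟨-, -, b2, -, -⟩, ⟨-, b6, b7, b8, b9⟩, ⟨b10, b11, b12, b13, b14⟩⟩ := q1
  obtain ⟨⟨-, -, c2, -, -⟩, ⟨-, -, c7, c8, -⟩, ⟨c10, c11, -, -, c14⟩⟩ := q2
  obtain ⟨⟨-, -, d2, -, -⟩, ⟨-, -, -, d8, -⟩, ⟨-, d11, -, -, -⟩⟩ := q3
  refine ⟨fun i => ?_, fun i => ?_, fun i => ?_⟩
  · fin_cases i <;> assumption
  · fin_cases i <;> assumption
  · fin_cases i <;> assumption

theorem kil {k : Type} [CommRing k] [Algebra k F] (D : Derivation k F F) {u : Fin 9 → F} {g : Fin 7 → F} {c r : Fin 10 → F}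
    (hF : ∀ m, D (coeff m (FF u g c r)) = 0) (V : Matrix (Fin 4) (Fin 4) F) (hV : um u * V = 1)
    {M : Matrix (Fin 4) (Fin 4) F} (hM : M = (um u).map D * V) (h0 : c 0 ≠ 0) (h3 : c 3 ≠ 0) (hg0 : g 0 ≠ 0)
    (hg1 : g 1 ≠ 0) (hg3 : g 3 ≠ 0) (hk : M 3 2 = 0) :
    (∀ i, D (u i) = 0) ∧ (∀ i, D (g i) = 0) ∧ (∀ i, D (c i) = 0) ∧ (∀ i, D (r i) = 0) := by
  obtain ⟨⟨e30, e31, e10, e01⟩, ⟨f1, f2, f3, f4⟩, -, -⟩ := eqs D hF V hV hM h0 h3 hg0
  have hc : ∀ i, M i 3 = 0 := fun i => by rw [hM]; exact col3 D V hV i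
  have e20 : M 2 0 = 0 := by
    have : 2 * g 1 * M 2 0 = 0 := by linear_combination f1 - c 0 * hk
    exact (mul_eq_zero.1 this).resolve_left (mul_ne_zero two_ne_zero hg1)
  have e21 : M 2 1 = 0 := by
    have : 2 * g 3 * M 2 1 = 0 := by linear_combination f2 - c 3 * hk
    exact (mul_eq_zero.1 this).resolve_left (mul_ne_zero two_ne_zero hg3)
  have e12 : M 1 2 = 0 := by
    have : 2 * g 0 * M 1 2 = 0 := by linear_combination f3 - c 1 * hk - 2 * g 2 * e20 - 2 * g 1 * e21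
    exact (mul_eq_zero.1 this).resolve_left (mul_ne_zero two_ne_zero hg0)
  have e02 : M 0 2 = 0 := by
    have : 2 * g 0 * M 0 2 = 0 := by linear_combination f4 - c 2 * hk - 2 * g 3 * e20 - 2 * g 2 * e21
    exact (mul_eq_zero.1 this).resolve_left (mul_ne_zero two_ne_zero hg0)
  have hV' : V * um u = 1 := mul_eq_one_comm.1 hV
  have hMu : M * um u = (um u).map D := by
    rw [hM, Matrix.mul_assoc, hV', Matrix.mul_one]
  have hMu' : ∀ i j, M i 0 * um u 0 j + M i 1 * um u 1 j + M i 2 * um u 2 j + M i 3 * um u 3 j = D (um u i j) := by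
    intro i j
    have := congrFun (congrFun hMu i) j
    rw [Matrix.mul_apply, Fin.sum_univ_four] at this
    exact this
  have d1 : D (1 : F) = 0 := D.map_one_eq_zero
  have m00 : M 0 0 = 0 := by
    have := hMu' 0 0
    simp only [um, Matrix.of_apply, Matrix.cons_val_zero, Matrix.cons_val_one, Matrix.cons_val, Matrix.cons_val'] at this
    linear_combination this - u 2 * e01 - u 4 * e02 - u 6 * hc 0 + d1
  have m11 : M 1 1 = 0 := by
    have := hMu' 1 1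
    simp only [um, Matrix.of_apply, Matrix.cons_val_zero, Matrix.cons_val_one, Matrix.cons_val, Matrix.cons_val'] at this
    linear_combination this - u 0 * e10 - u 5 * e12 - u 7 * hc 1 + d1
  have m22 : M 2 2 = 0 := by
    have := hMu' 2 2
    simp only [um, Matrix.of_apply, Matrix.cons_val_zero, Matrix.cons_val_one, Matrix.cons_val, Matrix.cons_val'] at this
    linear_combination this - u 1 * e20 - u 3 * e21 - u 8 * hc 2 + d1
  have hM0 : M = 0 := by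
    ext i j
    rw [Matrix.zero_apply]
    fin_cases i <;> fin_cases j <;> first | assumption | exact hc _
  have hu0 : (um u).map D = 0 := by rw [← hMu, hM0, Matrix.zero_mul]
  have hD : ∀ i j, D (um u i j) = 0 := fun i j => congrFun (congrFun hu0 i) j
  have hu : ∀ i, D (u i) = 0 := by
    intro i
    fin_cases i
    · exact hD 0 1
    · exact hD 0 2
    · exact hD 1 0
    · exact hD 1 2
    · exact hD 2 0
    · exact hD 2 1
    · exact hD 3 0
    · exact hD 3 1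
    · exact hD 3 2
  have hfn : ∀ X Y Z W : F, fn (fun i => D (g i)) (fun i => D (c i)) (fun i => D (r i)) X Y Z W = 0 := by
    intro X Y Z W
    have := k1 D hF V hV ![X, Y, Z, W]
    rw [← hM, hM0] at this
    simpa [Matrix.zero_mulVec] using this
  exact ⟨hu, fn_zero hfn⟩

end

end H77.QS
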