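import Pool.Agent.H77.QS.Nvn

/-! # QS.Kp : a derivation which kills the coefficients of the form and the modulus (or the point) kills the parameters -/

namespace H77.QS

section
variable {Ω : Type} [Field Ω] [CharZero Ω] {v : Fin 37 → Ω} (hv : IsTranscendenceBasis ℚ v) (r : FD v) (y : Ω)
  {k : Type} [Field k] [Algebra k Ω] (D : Derivation k Ω Ω)
  (hF : ∀ m, D (MvPolynomial.coeff m (FF (pU v) (pG v) (pC v) (pR v))) = 0)

include hv hF

theorem kil_a (ha : D r.a = 0) :
    (∀ i, D (pU v i) = 0) ∧ (∀ i, D (pG v i) = 0) ∧ (∀ i, D (pC v i) = 0) ∧ (∀ i, D (pR v i) = 0) := by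
  have hk := kap D hF (vm (pU v)) (um_vm (dl_ne hv)) rfl (v_ne hv _) (v_ne hv _) (v_ne hv _) (EE_ne hv) (iI_ne hv) (iJ_ne hv)
    r.mod ha
  exact kil D hF (vm (pU v)) (um_vm (dl_ne hv)) rfl (v_ne hv _) (v_ne hv _) (v_ne hv _) (v_ne hv _) (v_ne hv _) hk

/-- a point of the surface with three constant coordinates has constant coordinates -/
theorem cst2 {p0 p1 p2 : Ω} (h0 : D p0 = 0) (h1 : D p1 = 0) (hp : fu (pU v) (pG v) (pC v) (pR v) ![p0, p1, p2, 1] = 0) :
    D p2 = 0 := by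
  by_contra h2
  have htr : Transcendental (cf D) p2 := fun h => h2 (cf_alg D h)
  let P0 : MvPolynomial (Fin 4) (cf D) := ∑ m ∈ (FF (pU v) (pG v) (pC v) (pR v)).support,
    MvPolynomial.monomial m ⟨MvPolynomial.coeff m (FF (pU v) (pG v) (pC v) (pR v)), hF m⟩
  have hP0 : MvPolynomial.map (algebraMap (cf D) Ω) P0 = FF (pU v) (pG v) (pC v) (pR v) := by
    conv_rhs => rw [(FF (pU v) (pG v) (pC v) (pR v)).as_sum]
    rw [map_sum]
    exact Finset.sum_congr rfl fun m _ => by
      rw [MvPolynomial.map_monomial]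
      rfl
  let G : Polynomial (cf D) := MvPolynomial.aeval (![Polynomial.C ⟨p0, h0⟩, Polynomial.C ⟨p1, h1⟩, Polynomial.X, 1]) P0
  have hG : ∀ x : Ω, Polynomial.aeval x G = fu (pU v) (pG v) (pC v) (pR v) ![p0, p1, x, 1] := by
    intro x
    rw [← eval_FF, ← hP0, MvPolynomial.eval_map]
    have e1 := MvPolynomial.comp_aeval_apply (![Polynomial.C ⟨p0, h0⟩, Polynomial.C ⟨p1, h1⟩, Polynomial.X, 1] : Fin 4 → Polynomial (cf D))
      (Polynomial.aeval x) P0
    refine e1.trans ?_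
    rw [MvPolynomial.aeval_def]
    congr 1
    funext i
    fin_cases i <;> simp
  have hG0 : G = 0 := by
    by_contra hne
    exact htr ⟨G, hne, (hG p2).trans hp⟩
  have hall : ∀ x : Ω, fu (pU v) (pG v) (pC v) (pR v) ![p0, p1, x, 1] = 0 := by
    intro x
    rw [← hG x, hG0, map_zero]
  -- homogeneity
  have hhom : ∀ (t : Ω) (w : Fin 4 → Ω), fu (pU v) (pG v) (pC v) (pR v) (fun i => t * w i) = t ^ 4 * fu (pU v) (pG v) (pC v) (pR v) w := by
    intro t w
    have hl : ∀ i, ul (pU v) i (fun i => t * w i) = t * ul (pU v) i w := by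
      intro i
      rw [ul_eq, ul_eq, Finset.mul_sum]
      exact Finset.sum_congr rfl fun j _ => by ring
    unfold fu
    rw [hl, hl, hl, hl]
    unfold fn
    ring
  let Q : Polynomial Ω := fu (fun i => Polynomial.C (pU v i)) (fun i => Polynomial.C (pG v i)) (fun i => Polynomial.C (pC v i))
    (fun i => Polynomial.C (pR v i)) ![Polynomial.C p0 * Polynomial.X, Polynomial.C p1 * Polynomial.X, 1, Polynomial.X]
  have hQ : ∀ t : Ω, Polynomial.eval t Q = fu (pU v) (pG v) (pC v) (pR v) ![p0 * t, p1 * t, 1, t] := by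
    intro t
    change (Polynomial.evalRingHom t) _ = _
    rw [fu_map (Polynomial.evalRingHom t)]
    simp only [Polynomial.coe_evalRingHom, Polynomial.eval_C]
    congr 1
    funext i
    fin_cases i <;> simp
  have hQ0 : Q = 0 := by
    refine Polynomial.eq_zero_of_infinite_isRoot Q ?_
    have hinf : Infinite Ω := inferInstance
    refine Set.Infinite.mono (s := {t | t ≠ 0}) ?_ ?_
    · intro t ht
      change Polynomial.eval t Q = 0
      rw [hQ]
      have h3 := hhom t ![p0, p1, t⁻¹, 1]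
      rw [hall, mul_zero] at h3
      rw [← h3]
      congr 1
      funext i
      fin_cases i
      · simp [mul_comm]
      · simp [mul_comm]
      · simp [mul_inv_cancel₀ ht]
      · simp
    · have : {t : Ω | t ≠ 0} = ({0} : Set Ω)ᶜ := rfl
      rw [this]
      exact (Set.finite_singleton (0 : Ω)).infinite_compl
  have h4 := hQ 0
  rw [hQ0, Polynomial.eval_zero, mul_zero, mul_zero] at h4
  exact f2_ne hv h4.symm

theorem kil_p (hy : y ^ 2 = v 36 ^ 3 - 3 * r.a * v 36 - 2 * r.b) (h0 : D (r.p y 0 / r.p y 3) = 0) (h1 : D (r.p y 1 / r.p y 3) = 0)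
    (i : Fin 37) : D (v i) = 0 := by
  have hp3 := FD.p3_ne hv r y hy
  let P : Fin 4 → Ω := ![r.p y 0 / r.p y 3, r.p y 1 / r.p y 3, r.p y 2 / r.p y 3, 1]
  have hPe : ∀ i, P i = (r.p y 3)⁻¹ * r.p y i := by
    intro i
    fin_cases i
    · exact div_eq_inv_mul _ _
    · exact div_eq_inv_mul _ _
    · exact div_eq_inv_mul _ _
    · exact (inv_mul_cancel₀ hp3).symm
  have hul : ∀ i, ul (pU v) i P = (r.p y 3)⁻¹ * r.z y i := by
    intro i
    rw [← r.up y (dl_ne hv) i, ul_eq, ul_eq, Finset.mul_sum]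
    exact Finset.sum_congr rfl fun j _ => by rw [hPe]; ring
  have hP0 : fu (pU v) (pG v) (pC v) (pR v) P = 0 := by
    have h := r.ev_z y (pC v) (pR v) hy
    unfold fu
    rw [hul, hul, hul, hul]
    have : fn (pG v) (pC v) (pR v) ((r.p y 3)⁻¹ * r.z y 0) ((r.p y 3)⁻¹ * r.z y 1) ((r.p y 3)⁻¹ * r.z y 2) ((r.p y 3)⁻¹ * r.z y 3) =
      (r.p y 3)⁻¹ ^ 4 * fn (pG v) (pC v) (pR v) (r.z y 0) (r.z y 1) (r.z y 2) (r.z y 3) := by
      unfold fn
      ring
    rw [this, h, mul_zero]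
  have h2 : D (r.p y 2 / r.p y 3) = 0 := cst2 hv D hF h0 h1 hP0
  have hDP : ∀ j, D (P j) = 0 := by
    intro j
    fin_cases j
    · exact h0
    · exact h1
    · exact h2
    · exact D.map_one_eq_zero
  have hdl := dl_ne hv
  have h3 : ∀ i, D (ul (pU v) i P) = ((um (pU v)).map D * vm (pU v)).mulVec (fun j => (r.p y 3)⁻¹ * r.z y j) i := by
    intro i
    have hv' : (vm (pU v)).mulVec (fun j => (r.p y 3)⁻¹ * r.z y j) = P := by
      have e : (fun j => (r.p y 3)⁻¹ * r.z y j) = (um (pU v)).mulVec P := by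
        funext j
        exact (hul j).symm
      rw [e, Matrix.mulVec_mulVec, mul_eq_one_comm.1 (um_vm hdl), Matrix.one_mulVec]
    rw [← Matrix.mulVec_mulVec, hv', ul_eq, map_sum]
    change _ = ∑ j, (um (pU v)).map D i j * P j
    refine Finset.sum_congr rfl fun j _ => ?_
    rw [D.leibniz, hDP, smul_zero, zero_add, smul_eq_mul, Matrix.map_apply]
    ring
  obtain ⟨⟨e30, e31, -, -⟩, -, -, -⟩ := eqs D hF (vm (pU v)) (um_vm hdl) rfl (v_ne hv _) (v_ne hv _) (v_ne hv _)
  have hk : ((um (pU v)).map D * vm (pU v)) 3 2 = 0 := by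
    have h4 := h3 3
    have h5 : r.z y 3 = 0 := rfl
    rw [hul, h5, mul_zero, map_zero] at h4
    unfold Matrix.mulVec dotProduct at h4
    rw [Fin.sum_univ_four] at h4
    beta_reduce at h4
    rw [e30, e31, h5] at h4
    have h6 : ((um (pU v)).map D * vm (pU v)) 3 2 * ((r.p y 3)⁻¹ * r.z y 2) = 0 := by
      rw [mul_zero, mul_zero, zero_mul, zero_mul, zero_add, zero_add, add_zero] at h4
      exact h4.symm
    exact (mul_eq_zero.1 h6).resolve_right (mul_ne_zero (inv_ne_zero hp3) (FD.z2_ne hv r y))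
  obtain ⟨kU, kG, kC, kR⟩ := kil D hF (vm (pU v)) (um_vm hdl) rfl (v_ne hv _) (v_ne hv _) (v_ne hv _) (v_ne hv _) (v_ne hv _) hk
  -- the last parameter
  have hum : (um (pU v)).map D = 0 := by
    ext i j
    rw [Matrix.map_apply, Matrix.zero_apply]
    unfold um
    have d1 : D (1 : Ω) = 0 := D.map_one_eq_zero
    fin_cases i <;> fin_cases j <;> first | exact d1 | exact map_zero D | exact kU _
  have h7 : ∀ i, D ((r.p y 3)⁻¹ * r.z y i) = 0 := by
    intro i
    rw [← hul, h3, hum, Matrix.zero_mul, Matrix.zero_mulVec]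
    rfl
  have hz2 := FD.z2_ne hv r y
  have hm1 : (r.p y 3)⁻¹ * r.z y 1 ∈ cf D := h7 1
  have hm2 : (r.p y 3)⁻¹ * r.z y 2 ∈ cf D := h7 2
  have hu2 := FD.u2_ne hv r
  have hq2 := FD.q2_ne hv r
  have hquo : r.u1 / r.u2 ∈ cf D := by
    have : r.u1 / r.u2 = ((r.p y 3)⁻¹ * r.z y 1) / ((r.p y 3)⁻¹ * r.z y 2) := by
      have e1 : r.z y 1 = 2 * r.q2 * r.u1 := rfl
      have e2 : r.z y 2 = 2 * r.q2 * r.u2 := rfl
      rw [e1, e2]
      field_simp
    rw [this]
    exact div_mem hm1 hm2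
  obtain ⟨c1, c2, c3, c4, -, -, -⟩ := r.kill D kG
  have hl : D (v 36) = 0 := by
    have h8 : r.u1 = (r.u1 / r.u2) * r.u2 := (div_mul_cancel₀ _ hu2).symm
    have h9 := congrArg D h8
    rw [D.leibniz, show D (r.u1 / r.u2) = 0 from hquo] at h9
    have hd1 : D r.u1 = r.d1 * D (v 36) := by
      unfold FD.u1
      rw [map_add, D.leibniz, c1, c3]
      simp
    have hd2 : D r.u2 = r.d2 * D (v 36) := by
      unfold FD.u2
      rw [map_add, D.leibniz, c2, c4]
      simp
    rw [hd1, hd2, smul_zero, add_zero, smul_eq_mul] at h9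
    have h10 : (r.d1 * r.e2 - r.d2 * r.e1) * D (v 36) = 0 := by
      have h11 : r.u2 * (r.d1 * D (v 36)) = r.u1 * (r.d2 * D (v 36)) := by
        rw [h9]
        field_simp
      unfold FD.u1 FD.u2 at h11
      linear_combination h11
    exact (mul_eq_zero.1 h10).resolve_left r.det
  exact all_v (P := fun x => D x = 0) kU kG kC kR hl i

end

end H77.QS
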