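import Pool.Agent.H77.QS.Def

/-! # QS.Leib : the Leibniz rule for the normal form -/

namespace H77.QS

open MvPolynomial

theorem leib {k A : Type} [CommRing k] [CommRing A] [Algebra k A] (D : Derivation k A A) (g : Fin 7 → A) (c r : Fin 10 → A)
    (X Y Z W : A) :
    D (fn g c r X Y Z W) = fn (fun i => D (g i)) (fun i => D (c i)) (fun i => D (r i)) X Y Z W +
      fnX g c r X Y Z W * D X + fnY g c r X Y Z W * D Y + fnZ g c r X Y Z W * D Z + fnW g c r X Y Z W * D W := by
  unfold fn fnX fnY fnZ fnW
  simp only [map_add, Derivation.leibniz, Derivation.leibniz_pow, smul_eq_mul, nsmul_eq_mul]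
  push_cast
  ring

end H77.QS
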