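import Pool.Agent.H77.QS.Pnt

/-! # QS.Nvn : the direction, the leading coefficient and the last coordinate of the point do not vanish -/

namespace H77.QS

open Polynomial

section
variable {Ω : Type} [Field Ω] [CharZero Ω] {v : Fin 37 → Ω} (hv : IsTranscendenceBasis ℚ v) (r : FD v) (y : Ω)
include hv

/-- the derivation with respect to one parameter -/
theorem ex_pd (j : Fin 37) : ∃ D : Derivation ℚ Ω Ω, D (v j) = 1 ∧ ∀ i, i ≠ j → D (v i) = 0 := by
  classical
  obtain ⟨D, hD⟩ := H50.Z.exists_derivation hv (fun i => if i = j then 1 else 0)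
  refine ⟨D, ?_, fun i hi => ?_⟩
  · rw [hD, if_pos rfl]
  · rw [hD, if_neg hi]

theorem FD.lin0 {A B : Ω} (hA : ∀ D : Derivation ℚ Ω Ω, (∀ i, D (pG v i) = 0) → D A = 0)
    (hB : ∀ D : Derivation ℚ Ω Ω, (∀ i, D (pG v i) = 0) → D B = 0) (h : v 36 * A + B = 0) : A = 0 ∧ B = 0 := by
  obtain ⟨D, hD, hD'⟩ := ex_pd hv 36
  have hG : ∀ i, D (pG v i) = 0 := fun i => hD' _ (by
    intro h
    have := congrArg Fin.val h
    simp only at this
    have h36 : ((36 : Fin 37) : ℕ) = 36 := rfl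
    have := i.2
    omega)
  have h1 := congrArg D h
  rw [map_add, D.leibniz, hA D hG, hB D hG, hD, map_zero, smul_zero, zero_add, add_zero, smul_eq_mul, mul_one] at h1
  exact ⟨h1, by rw [h1, mul_zero, zero_add] at h; exact h⟩

theorem FD.u2_ne : r.u2 ≠ 0 := by
  intro h
  unfold FD.u2 at h
  have h1 := FD.lin0 hv (A := r.d2) (B := r.e2) (fun D hD => (r.kill D hD).2.1) (fun D hD => (r.kill D hD).2.2.2.1) h
  apply r.det
  rw [h1.1, h1.2]
  ring

theorem FD.q2_ne : r.q2 ≠ 0 := by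
  intro h
  have hg0 : pG v 0 ≠ 0 := v_ne hv _
  have hg1 : pG v 1 ≠ 0 := v_ne hv _
  -- the quadratic polynomial in the last parameter
  obtain ⟨D, hD, hD'⟩ := ex_pd hv 36
  have hG : ∀ i, D (pG v i) = 0 := fun i => hD' _ (by
    intro h
    have := congrArg Fin.val h
    simp only at this
    have h36 : ((36 : Fin 37) : ℕ) = 36 := rfl
    have := i.2
    omega)
  obtain ⟨k1, k2, k3, k4, -, -, -⟩ := r.kill D hG
  have h1 : D r.u1 = r.d1 := by
    unfold FD.u1
    rw [map_add, D.leibniz, k1, k3, hD]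
    simp
  have h2 : D r.u2 = r.d2 := by
    unfold FD.u2
    rw [map_add, D.leibniz, k2, k4, hD]
    simp
  have e1 : pG v 0 * r.u1 * r.d1 + pG v 1 * r.u2 * r.d2 = 0 := by
    have := congrArg D h
    unfold FD.q2 at this
    rw [map_add, D.leibniz, D.leibniz, hG, hG, D.leibniz_pow, D.leibniz_pow, h1, h2, map_zero] at this
    simp only [smul_eq_mul, mul_zero, add_zero, nsmul_eq_mul] at this
    have h2 : (2 : Ω) * (pG v 0 * r.u1 * r.d1 + pG v 1 * r.u2 * r.d2) = 0 := by
      push_cast at this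
      linear_combination this
    exact (mul_eq_zero.1 h2).resolve_left two_ne_zero
  have e2 : pG v 0 * r.d1 ^ 2 + pG v 1 * r.d2 ^ 2 = 0 := by
    have := congrArg D e1
    rw [map_add, D.leibniz, D.leibniz, D.leibniz, D.leibniz, hG, hG, h1, h2, k1, k2, map_zero] at this
    simp only [smul_eq_mul, mul_zero, add_zero, zero_add] at this
    linear_combination this
  have e3 : pG v 0 * r.d1 * r.e1 + pG v 1 * r.d2 * r.e2 = 0 := by
    have : pG v 0 * r.u1 * r.d1 + pG v 1 * r.u2 * r.d2 = v 36 * (pG v 0 * r.d1 ^ 2 + pG v 1 * r.d2 ^ 2) +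
      (pG v 0 * r.d1 * r.e1 + pG v 1 * r.d2 * r.e2) := by
      unfold FD.u1 FD.u2
      ring
    rw [e1, e2, mul_zero, zero_add] at this
    exact this.symm
  have e4 : pG v 0 * r.e1 ^ 2 + pG v 1 * r.e2 ^ 2 = 0 := by
    have : r.q2 = v 36 ^ 2 * (pG v 0 * r.d1 ^ 2 + pG v 1 * r.d2 ^ 2) + 2 * v 36 * (pG v 0 * r.d1 * r.e1 + pG v 1 * r.d2 * r.e2) +
      (pG v 0 * r.e1 ^ 2 + pG v 1 * r.e2 ^ 2) := by
      unfold FD.q2 FD.u1 FD.u2
      ring
    rw [h, e2, e3, mul_zero, mul_zero, zero_add, zero_add] at this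
    exact this.symm
  have e5 : pG v 0 * pG v 1 * (r.d1 * r.e2 - r.d2 * r.e1) ^ 2 = 0 := by
    linear_combination (pG v 1 * r.e2 ^ 2) * e2 + (pG v 1 * r.d2 ^ 2) * e4 - 2 * (pG v 1 * r.d2 * r.e2) * e3
  exact (mul_ne_zero (mul_ne_zero hg0 hg1) (pow_ne_zero 2 r.det)) e5

theorem FD.z_kill (hy : y ^ 2 = v 36 ^ 3 - 3 * r.a * v 36 - 2 * r.b) {k : Type} [Field k] [Algebra k Ω] (D : Derivation k Ω Ω)
    (hG : ∀ i, D (pG v i) = 0) (hl : D (v 36) = 0) (i : Fin 4) : D (r.z y i) = 0 := by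
  obtain ⟨k1, k2, k3, k4, k5, k6, k7⟩ := r.kill D hG
  have hc : ∀ n : ℕ, D (n : Ω) = 0 := fun n => D.map_natCast n
  have h2 : D (2 : Ω) = 0 := D.map_natCast 2
  have h3 : D (3 : Ω) = 0 := D.map_natCast 3
  have hyD : D y = 0 := by
    have := congrArg D hy
    rw [map_sub, map_sub, D.leibniz_pow, D.leibniz_pow, D.leibniz, D.leibniz, D.leibniz, hl, k6, k7, h2, h3] at this
    simp only [smul_eq_mul, mul_zero, add_zero, nsmul_eq_mul, smul_zero, sub_zero] at this
    by_cases h0 : y = 0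
    · rw [h0, map_zero]
    · push_cast at this
      have h4 : (2 * y) * D y = 0 := by linear_combination this
      exact (mul_eq_zero.1 h4).resolve_left (mul_ne_zero two_ne_zero h0)
  have m2 : (2 : Ω) ∈ cf D := h2
  have m36 : v 36 ∈ cf D := hl
  have mg : ∀ i, pG v i ∈ cf D := hG
  have m1 : r.u1 ∈ cf D := add_mem (mul_mem m36 (mem_cf.2 k1)) (mem_cf.2 k3)
  have mu2 : r.u2 ∈ cf D := add_mem (mul_mem m36 (mem_cf.2 k2)) (mem_cf.2 k4)
  have mq2 : r.q2 ∈ cf D := add_mem (mul_mem (mg 0) (pow_mem m1 2)) (mul_mem (mg 1) (pow_mem mu2 2))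
  have mq3 : r.q3 ∈ cf D := add_mem (mul_mem (mul_mem (mg 2) m1) (pow_mem mu2 2)) (mul_mem (mg 4) (pow_mem mu2 3))
  have mw : r.w y ∈ cf D :=
    mul_mem (add_mem (mul_mem (mul_mem (mem_cf.2 k5) (mem_cf.2 k2)) m36) (mul_mem (mem_cf.2 k5) (mem_cf.2 k4))) (mem_cf.2 hyD)
  rw [← mem_cf]
  unfold FD.z
  fin_cases i
  · exact sub_mem mw mq3
  · exact mul_mem (mul_mem m2 mq2) m1
  · exact mul_mem (mul_mem m2 mq2) mu2
  · exact zero_mem _

theorem FD.z2_ne : r.z y 2 ≠ 0 := by
  change 2 * r.q2 * r.u2 ≠ 0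
  exact mul_ne_zero (mul_ne_zero two_ne_zero (FD.q2_ne hv r)) (FD.u2_ne hv r)

theorem FD.p_ne : r.p y ≠ 0 := by
  intro h
  have := r.up y (dl_ne hv) 2
  rw [h] at this
  have h0 : ul (pU v) 2 (0 : Fin 4 → Ω) = 0 := by
    unfold ul
    rw [Matrix.mulVec_zero]
    rfl
  rw [h0] at this
  exact FD.z2_ne hv r y this.symm

theorem FD.p3_ne (hy : y ^ 2 = v 36 ^ 3 - 3 * r.a * v 36 - 2 * r.b) : r.p y 3 ≠ 0 := by
  intro h3
  have key : ∀ j : Fin 3, r.p y (Fin.castSucc j) = 0 := by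
    intro j
    obtain ⟨D, hD, hD'⟩ := ex_pd hv ⟨6 + j.1, by omega⟩
    have hne : ∀ i : Fin 37, i.1 ≠ 6 + j.1 → D (v i) = 0 := fun i hi => hD' i (fun h => hi (congrArg Fin.val h))
    have hG : ∀ i, D (pG v i) = 0 := fun i => hne _ (by
      change 9 + i.1 ≠ 6 + j.1
      have := j.2
      omega)
    have hl : D (v 36) = 0 := hne _ (by
      change 36 ≠ 6 + j.1
      have := j.2
      omega)
    have hu : ∀ i : Fin 9, i.1 < 6 → D (pU v i) = 0 := fun i hi => hne _ (by
      change i.1 ≠ 6 + j.1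
      omega)
    have hz := FD.z_kill hv r y hy D hG hl
    have mu : ∀ i : Fin 9, i.1 < 6 → pU v i ∈ cf D := fun i hi => hu i hi
    have m0 := mu 0 (by decide)
    have m1 := mu 1 (by decide)
    have m2 := mu 2 (by decide)
    have m3 := mu 3 (by decide)
    have m4 := mu 4 (by decide)
    have m5 := mu 5 (by decide)
    have mdl : dl (pU v) ∈ cf D := by
      unfold dl
      exact sub_mem (sub_mem (sub_mem (add_mem (add_mem (one_mem _) (mul_mem (mul_mem m0 m3) m4)) (mul_mem (mul_mem m1 m2) m5))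
        (mul_mem m1 m4)) (mul_mem m0 m2)) (mul_mem m3 m5)
    have mdi : (dl (pU v))⁻¹ ∈ cf D := inv_mem mdl
    have hp : ∀ i : Fin 3, D (r.p y (Fin.castSucc i)) = 0 := by
      intro i
      rw [← mem_cf]
      unfold FD.p Matrix.mulVec dotProduct
      rw [Fin.sum_univ_four]
      have hzm : ∀ i, r.z y i ∈ cf D := hz
      have hvm : ∀ l : Fin 4, vm (pU v) (Fin.castSucc i) l ∈ cf D := by
        intro l
        unfold vm
        fin_cases i <;> fin_cases l
        · exact mul_mem (sub_mem (one_mem _) (mul_mem m3 m5)) mdi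
        · exact mul_mem (sub_mem (mul_mem m1 m5) m0) mdi
        · exact mul_mem (sub_mem (mul_mem m0 m3) m1) mdi
        · exact zero_mem _
        · exact mul_mem (sub_mem (mul_mem m3 m4) m2) mdi
        · exact mul_mem (sub_mem (one_mem _) (mul_mem m1 m4)) mdi
        · exact mul_mem (sub_mem (mul_mem m1 m2) m3) mdi
        · exact zero_mem _
        · exact mul_mem (sub_mem (mul_mem m2 m5) m4) mdi
        · exact mul_mem (sub_mem (mul_mem m0 m4) m5) mdi
        · exact mul_mem (sub_mem (one_mem _) (mul_mem m0 m2)) mdi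
        · exact zero_mem _
      exact add_mem (add_mem (add_mem (mul_mem (hvm 0) (hzm 0)) (mul_mem (hvm 1) (hzm 1))) (mul_mem (hvm 2) (hzm 2)))
        (mul_mem (hvm 3) (hzm 3))
    have h4 := r.up y (dl_ne hv) 3
    have h5 : r.z y 3 = 0 := rfl
    rw [h5, ul_eq, Fin.sum_univ_four] at h4
    have h6 : pU v 6 * r.p y 0 + pU v 7 * r.p y 1 + pU v 8 * r.p y 2 + r.p y 3 = 0 := by
      have : um (pU v) 3 0 * r.p y 0 + um (pU v) 3 1 * r.p y 1 + um (pU v) 3 2 * r.p y 2 + um (pU v) 3 3 * r.p y 3 =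
        pU v 6 * r.p y 0 + pU v 7 * r.p y 1 + pU v 8 * r.p y 2 + 1 * r.p y 3 := rfl
      rw [this] at h4
      linear_combination h4
    have h7 := congrArg D h6
    have hp0 : D (r.p y 0) = 0 := hp 0
    have hp1 : D (r.p y 1) = 0 := hp 1
    have hp2 : D (r.p y 2) = 0 := hp 2
    rw [h3, add_zero, map_add, map_add, D.leibniz, D.leibniz, D.leibniz, hp0, hp1, hp2, map_zero] at h7
    simp only [smul_eq_mul, mul_zero, zero_add] at h7
    have hDu : ∀ l : Fin 3, D (pU v ⟨6 + l.1, by omega⟩) = if l = j then 1 else 0 := by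
      intro l
      by_cases h : l = j
      · rw [if_pos h, h]
        exact hD
      · rw [if_neg h]
        exact hne _ (by
          change 6 + l.1 ≠ 6 + j.1
          intro h'
          exact h (Fin.ext (by omega)))
    have d6 := hDu 0
    have d7 := hDu 1
    have d8 := hDu 2
    change D (pU v 6) = _ at d6
    change D (pU v 7) = _ at d7
    change D (pU v 8) = _ at d8
    rw [d6, d7, d8] at h7
    fin_cases j
    · simpa using h7
    · simpa using h7
    · simpa using h7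
  apply FD.p_ne hv r y
  funext i
  fin_cases i
  · exact key 0
  · exact key 1
  · exact key 2
  · exact h3

end

end H77.QS
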