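import Pool.Agent.H77.QS.Kil

/-! # QS.OmE : a derivation which kills the coefficients of the form and the modulus does not move the bitangent plane -/

namespace H77.QS

open MvPolynomial

section
variable {R : Type} [CommRing R]

theorem om_lin (q p p' : Fin 5 → R) (x y : R) : om q (fun i => x * p i + y * p' i) = x * om q p + y * om q p' := by
  unfold om dI dJ
  ring

theorem om_wt (q : Fin 5 → R) (x y : R) : om q ![q 0 * x, q 1 * (x + y), q 2 * (x + 2 * y), q 3 * (x + 3 * y), q 4 * (x + 4 * y)] = 0 := by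
  unfold om dI dJ iI iJ
  simp only [Matrix.cons_val_zero, Matrix.cons_val_one, Matrix.cons_val]
  ring

/-- the torus direction -/
def wt (g : Fin 7 → R) (s t v : R) : Fin 7 → R :=
  ![-2 * g 0 * (s + t), -2 * g 1 * (s + v), -g 2 * (s + t + 2 * v), -2 * g 3 * (t + v), -g 4 * (s + 3 * v), -g 5 * (t + 3 * v),
    -4 * g 6 * v]

theorem dq_wt (g : Fin 7 → R) (s t v : R) : om (qq g) (dq g (wt g s t v)) = 0 := by
  have h : dq g (wt g s t v) = ![qq g 0 * (-2 * s - 4 * t - 2 * v), qq g 1 * ((-2 * s - 4 * t - 2 * v) + (t - v)),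
      qq g 2 * ((-2 * s - 4 * t - 2 * v) + 2 * (t - v)), qq g 3 * ((-2 * s - 4 * t - 2 * v) + 3 * (t - v)),
      qq g 4 * ((-2 * s - 4 * t - 2 * v) + 4 * (t - v))] := by
    unfold dq wt qq
    funext i
    fin_cases i
    · simp only [Matrix.cons_val_zero, Matrix.cons_val_one, Matrix.cons_val]
      ring
    · simp only [Matrix.cons_val_zero, Matrix.cons_val_one, Matrix.cons_val]
      ring
    · simp only [Matrix.cons_val_zero, Matrix.cons_val_one, Matrix.cons_val]
      ring
    · simp only [Matrix.cons_val_zero, Matrix.cons_val_one, Matrix.cons_val]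
      ring
    · simp only [Matrix.cons_val_zero, Matrix.cons_val_one, Matrix.cons_val]
      ring
  rw [h]
  exact om_wt _ _ _

theorem dq_lin (g v v' : Fin 7 → R) (x y : R) : dq g (fun i => x * v i + y * v' i) = fun i => x * dq g v i + y * dq g v' i := by
  unfold dq
  funext i
  fin_cases i
  · simp only [Matrix.cons_val_zero, Matrix.cons_val_one, Matrix.cons_val, Fin.zero_eta, Fin.mk_one, Fin.reduceFinMk]
    ring
  · simp only [Matrix.cons_val_zero, Matrix.cons_val_one, Matrix.cons_val, Fin.zero_eta, Fin.mk_one, Fin.reduceFinMk]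
    ring
  · simp only [Matrix.cons_val_zero, Matrix.cons_val_one, Matrix.cons_val, Fin.zero_eta, Fin.mk_one, Fin.reduceFinMk]
    ring
  · simp only [Matrix.cons_val_zero, Matrix.cons_val_one, Matrix.cons_val, Fin.zero_eta, Fin.mk_one, Fin.reduceFinMk]
    ring
  · simp only [Matrix.cons_val_zero, Matrix.cons_val_one, Matrix.cons_val, Fin.zero_eta, Fin.mk_one, Fin.reduceFinMk]
    ring

theorem der_qq {k : Type} [CommRing k] [Algebra k R] (D : Derivation k R R) (g : Fin 7 → R) :
    (fun i => D (qq g i)) = dq g (fun i => D (g i)) := by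
  have h4 : D (4 : R) = 0 := D.map_natCast 4
  have h2 : D (2 : R) = 0 := D.map_natCast 2
  unfold dq qq
  funext i
  fin_cases i
  · simp only [Matrix.cons_val_zero, Matrix.cons_val_one, Matrix.cons_val, map_sub, map_add, map_neg, Derivation.leibniz,
      Derivation.leibniz_pow, smul_eq_mul, nsmul_eq_mul, h4, h2, neg_mul, Fin.zero_eta, Fin.mk_one, Fin.reduceFinMk]
    push_cast
    ring
  · simp only [Matrix.cons_val_zero, Matrix.cons_val_one, Matrix.cons_val, map_sub, map_add, map_neg, Derivation.leibniz,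
      Derivation.leibniz_pow, smul_eq_mul, nsmul_eq_mul, h4, h2, neg_mul, Fin.zero_eta, Fin.mk_one, Fin.reduceFinMk]
    push_cast
    ring
  · simp only [Matrix.cons_val_zero, Matrix.cons_val_one, Matrix.cons_val, map_sub, map_add, map_neg, Derivation.leibniz,
      Derivation.leibniz_pow, smul_eq_mul, nsmul_eq_mul, h4, h2, neg_mul, Fin.zero_eta, Fin.mk_one, Fin.reduceFinMk]
    push_cast
    ring
  · simp only [Matrix.cons_val_zero, Matrix.cons_val_one, Matrix.cons_val, map_sub, map_add, map_neg, Derivation.leibniz,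
      Derivation.leibniz_pow, smul_eq_mul, nsmul_eq_mul, h4, h2, neg_mul, Fin.zero_eta, Fin.mk_one, Fin.reduceFinMk]
    push_cast
    ring
  · simp only [Matrix.cons_val_zero, Matrix.cons_val_one, Matrix.cons_val, map_sub, map_add, map_neg, Derivation.leibniz,
      Derivation.leibniz_pow, smul_eq_mul, nsmul_eq_mul, h4, h2, neg_mul, Fin.zero_eta, Fin.mk_one, Fin.reduceFinMk]
    push_cast
    ring

end

section
variable {F : Type} [Field F] [CharZero F]

theorem ome {k : Type} [CommRing k] [Algebra k F] (D : Derivation k F F) {u : Fin 9 → F} {g : Fin 7 → F} {c r : Fin 10 → F}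
    (hF : ∀ m, D (coeff m (FF u g c r)) = 0) (V : Matrix (Fin 4) (Fin 4) F) (hV : um u * V = 1)
    {M : Matrix (Fin 4) (Fin 4) F} (hM : M = (um u).map D * V) (h0 : c 0 ≠ 0) (h3 : c 3 ≠ 0) (hg0 : g 0 ≠ 0) :
    2 * g 0 * g 1 * g 3 * om (qq g) (fun i => D (qq g i)) = M 3 2 * EE g c := by
  obtain ⟨-, ⟨f1, f2, f3, f4⟩, ⟨g0, g1, g2, g3⟩, ⟨g4, g5, g6⟩⟩ := eqs D hF V hV hM h0 h3 hg0
  have key : (fun i => 2 * g 0 * g 1 * g 3 * D (g i)) = fun i => M 3 2 * mv g c i + (2 * g 0 * g 1 * g 3) * wt g (M 0 0) (M 1 1) (M 2 2) i := by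
    have e20 : 2 * g 0 * g 1 * g 3 * M 2 0 = -(g 0 * g 3 * c 0) * M 3 2 := by linear_combination g 0 * g 3 * f1
    have e21 : 2 * g 0 * g 1 * g 3 * M 2 1 = -(g 0 * g 1 * c 3) * M 3 2 := by linear_combination g 0 * g 1 * f2
    have e12 : 2 * g 0 * g 1 * g 3 * M 1 2 = (-(c 1 * g 1 * g 3) + g 2 * g 3 * c 0 + g 1 ^ 2 * c 3) * M 3 2 := by
      linear_combination g 1 * g 3 * f3 - g 2 * g 3 * f1 - g 1 ^ 2 * f2
    have e02 : 2 * g 0 * g 1 * g 3 * M 0 2 = (-(c 2 * g 1 * g 3) + g 3 ^ 2 * c 0 + g 1 * g 2 * c 3) * M 3 2 := by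
      linear_combination g 1 * g 3 * f4 - g 3 ^ 2 * f1 - g 1 * g 2 * f2
    unfold mv wt
    funext i
    fin_cases i
    · simp only [Matrix.cons_val_zero, Matrix.cons_val_one, Matrix.cons_val, Fin.zero_eta, Fin.mk_one, Fin.reduceFinMk]
      rw [g0]
      ring
    · simp only [Matrix.cons_val_zero, Matrix.cons_val_one, Matrix.cons_val, Fin.zero_eta, Fin.mk_one, Fin.reduceFinMk]
      rw [g1]
      linear_combination -3 * g 4 * e20
    · simp only [Matrix.cons_val_zero, Matrix.cons_val_one, Matrix.cons_val, Fin.zero_eta, Fin.mk_one, Fin.reduceFinMk]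
      rw [g2]
      linear_combination -3 * g 4 * e21 - 3 * g 5 * e20
    · simp only [Matrix.cons_val_zero, Matrix.cons_val_one, Matrix.cons_val, Fin.zero_eta, Fin.mk_one, Fin.reduceFinMk]
      rw [g3]
      linear_combination -3 * g 5 * e21
    · simp only [Matrix.cons_val_zero, Matrix.cons_val_one, Matrix.cons_val, Fin.zero_eta, Fin.mk_one, Fin.reduceFinMk]
      rw [g4]
      linear_combination -2 * g 1 * e02 - g 2 * e12 - 4 * g 6 * e20
    · simp only [Matrix.cons_val_zero, Matrix.cons_val_one, Matrix.cons_val, Fin.zero_eta, Fin.mk_one, Fin.reduceFinMk]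
      rw [g5]
      linear_combination -g 2 * e02 - 2 * g 3 * e12 - 4 * g 6 * e21
    · simp only [Matrix.cons_val_zero, Matrix.cons_val_one, Matrix.cons_val, Fin.zero_eta, Fin.mk_one, Fin.reduceFinMk]
      rw [g6]
      linear_combination -g 4 * e02 - g 5 * e12
  rw [der_qq]
  have h1 : dq g (fun i => 2 * g 0 * g 1 * g 3 * D (g i)) = fun i => 2 * g 0 * g 1 * g 3 * dq g (fun i => D (g i)) i := by
    have := dq_lin g (fun i => D (g i)) (fun _ => 0) (2 * g 0 * g 1 * g 3) 0
    simpa using this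
  have h2 : om (qq g) (fun i => 2 * g 0 * g 1 * g 3 * dq g (fun i => D (g i)) i) = 2 * g 0 * g 1 * g 3 * om (qq g) (dq g (fun i => D (g i))) := by
    have := om_lin (qq g) (dq g (fun i => D (g i))) (fun _ => 0) (2 * g 0 * g 1 * g 3) 0
    simpa using this
  rw [← h2, ← h1, key, dq_lin, om_lin, dq_wt, mul_zero, add_zero]
  rfl

/-- if `a` is killed then the plane is not moved -/
theorem kap {k : Type} [CommRing k] [Algebra k F] (D : Derivation k F F) {u : Fin 9 → F} {g : Fin 7 → F} {c r : Fin 10 → F}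
    (hF : ∀ m, D (coeff m (FF u g c r)) = 0) (V : Matrix (Fin 4) (Fin 4) F) (hV : um u * V = 1)
    {M : Matrix (Fin 4) (Fin 4) F} (hM : M = (um u).map D * V) (h0 : c 0 ≠ 0) (h3 : c 3 ≠ 0) (hg0 : g 0 ≠ 0)
    (hE : EE g c ≠ 0) (hI : iI (qq g) ≠ 0) (hJ : iJ (qq g) ≠ 0) {a : F}
    (ha : a ^ 3 * (iJ (qq g) ^ 2 - 4 * iI (qq g) ^ 3) = 4 * iI (qq g) ^ 3) (hDa : D a = 0) : M 3 2 = 0 := by
  have hdI : D (iI (qq g)) = dI (qq g) (fun i => D (qq g i)) := by
    have h12 : D (12 : F) = 0 := D.map_natCast 12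
    have h3 : D (3 : F) = 0 := D.map_natCast 3
    unfold iI dI
    simp only [map_sub, map_add, Derivation.leibniz, Derivation.leibniz_pow, smul_eq_mul, nsmul_eq_mul, h12, h3]
    push_cast
    ring
  have hdJ : D (iJ (qq g)) = dJ (qq g) (fun i => D (qq g i)) := by
    have h1 : D (72 : F) = 0 := D.map_natCast 72
    have h2 : D (9 : F) = 0 := D.map_natCast 9
    have h3 : D (27 : F) = 0 := D.map_natCast 27
    have h4 : D (2 : F) = 0 := D.map_natCast 2
    unfold iJ dJ
    simp only [map_sub, map_add, Derivation.leibniz, Derivation.leibniz_pow, smul_eq_mul, nsmul_eq_mul, h1, h2, h3, h4]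
    push_cast
    ring
  have h4 : D (4 : F) = 0 := D.map_natCast 4
  have hda := congrArg D ha
  simp only [map_sub, Derivation.leibniz, Derivation.leibniz_pow, smul_eq_mul, nsmul_eq_mul, h4, hDa, hdI, hdJ] at hda
  push_cast at hda
  have hom : om (qq g) (fun i => D (qq g i)) = 0 := by
    have h5 : iI (qq g) ^ 2 * iJ (qq g) * (4 * om (qq g) (fun i => D (qq g i))) = 0 := by
      unfold om
      generalize dI (qq g) (fun i => D (qq g i)) = x at hda ⊢
      generalize dJ (qq g) (fun i => D (qq g i)) = y at hda ⊢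
      generalize iI (qq g) = I at hda ha ⊢
      generalize iJ (qq g) = J at hda ha ⊢
      linear_combination (-1) * (J ^ 2 - 4 * I ^ 3) * hda + (2 * J * y - 12 * I ^ 2 * x) * ha
    have h6 := (mul_eq_zero.1 h5).resolve_left (mul_ne_zero (pow_ne_zero 2 hI) hJ)
    exact (mul_eq_zero.1 h6).resolve_left (by norm_num)
  have := ome D hF V hV hM h0 h3 hg0
  rw [hom, mul_zero] at this
  exact (mul_eq_zero.1 this.symm).resolve_right hE

end

end H77.QS
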