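import Pool.Agent.H77.QS.Trd
import Pool.Agent.H77.QS.OmE

/-! # QS.Par : the parameters of the normal form and the quantities which do not vanish -/

namespace H77.QS

open MvPolynomial

section
variable {R S : Type} [CommRing R] [CommRing S]

/-- the nine parameters of the change of coordinates -/
def pU (v : Fin 37 → R) : Fin 9 → R := fun i => v ⟨i.1, by omega⟩

/-- the seven parameters of the binodal quartic -/
def pG (v : Fin 37 → R) : Fin 7 → R := fun i => v ⟨9 + i.1, by omega⟩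

/-- the ten coefficients of the cubic -/
def pC (v : Fin 37 → R) : Fin 10 → R := fun i => v ⟨16 + i.1, by omega⟩

/-- the ten coefficients of the quadric -/
def pR (v : Fin 37 → R) : Fin 10 → R := fun i => v ⟨26 + i.1, by omega⟩

theorem all_v {P : R → Prop} {v : Fin 37 → R} (hU : ∀ i, P (pU v i)) (hG : ∀ i, P (pG v i)) (hC : ∀ i, P (pC v i))
    (hR : ∀ i, P (pR v i)) (hl : P (v 36)) (j : Fin 37) : P (v j) := by
  by_cases h1 : j.1 < 9
  · exact hU ⟨j.1, h1⟩
  by_cases h2 : j.1 < 16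
  · have := hG ⟨j.1 - 9, by omega⟩
    unfold pG at this
    convert this
    simp only
    omega
  by_cases h3 : j.1 < 26
  · have := hC ⟨j.1 - 16, by omega⟩
    unfold pC at this
    convert this
    simp only
    omega
  by_cases h4 : j.1 < 36
  · have := hR ⟨j.1 - 26, by omega⟩
    unfold pR at this
    convert this
    simp only
    omega
  · have : j = 36 := Fin.ext (by
      change j.1 = 36
      omega)
    rw [this]
    exact hl

/-- the determinant of the change of coordinates -/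
def dl (u : Fin 9 → R) : R := 1 + u 0 * u 3 * u 4 + u 1 * u 2 * u 5 - u 1 * u 4 - u 0 * u 2 - u 3 * u 5

theorem qq_map (φ : R →+* S) (g : Fin 7 → R) (i : Fin 5) : φ (qq g i) = qq (fun j => φ (g j)) i := by
  unfold qq
  fin_cases i <;> simp [map_ofNat]

theorem iI_map (φ : R →+* S) (q : Fin 5 → R) : φ (iI q) = iI (fun j => φ (q j)) := by
  unfold iI
  simp only [map_add, map_sub, map_mul, map_pow, map_ofNat]

theorem iJ_map (φ : R →+* S) (q : Fin 5 → R) : φ (iJ q) = iJ (fun j => φ (q j)) := by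
  unfold iJ
  simp only [map_add, map_sub, map_mul, map_pow, map_ofNat]

theorem om_map (φ : R →+* S) (q p : Fin 5 → R) : φ (om q p) = om (fun j => φ (q j)) (fun j => φ (p j)) := by
  unfold om dI dJ
  simp only [map_add, map_sub, map_mul, map_pow, map_ofNat, iI_map φ, iJ_map φ]

theorem dq_map (φ : R →+* S) (g w : Fin 7 → R) (i : Fin 5) : φ (dq g w i) = dq (fun j => φ (g j)) (fun j => φ (w j)) i := by
  unfold dq
  fin_cases i <;> simp [map_ofNat]

theorem mv_map (φ : R →+* S) (g : Fin 7 → R) (c : Fin 10 → R) (i : Fin 7) :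
    φ (mv g c i) = mv (fun j => φ (g j)) (fun j => φ (c j)) i := by
  unfold mv
  fin_cases i <;> simp [map_ofNat]

theorem EE_map (φ : R →+* S) (g : Fin 7 → R) (c : Fin 10 → R) : φ (EE g c) = EE (fun j => φ (g j)) (fun j => φ (c j)) := by
  unfold EE
  rw [om_map φ]
  simp only [qq_map φ, dq_map φ, mv_map φ]

theorem dl_map (φ : R →+* S) (u : Fin 9 → R) : φ (dl u) = dl (fun j => φ (u j)) := by
  unfold dl
  simp only [map_add, map_sub, map_mul, map_one]

end

/-- the special parameters -/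
def sp : Fin 37 → ℤ := fun i => if i.1 = 9 ∨ i.1 = 10 ∨ i.1 = 12 ∨ i.1 = 25 then 1 else if i.1 = 15 then 2 else 0

section
variable {Ω : Type} [Field Ω] [CharZero Ω] {v : Fin 37 → Ω} (hv : IsTranscendenceBasis ℚ v)
include hv

theorem v_ne (i : Fin 37) : v i ≠ 0 := hv.1.ne_zero i

theorem EE_ne : EE (pG v) (pC v) ≠ 0 := by
  have h := nz hv (EE (pG X) (pC X)) sp (by
    rw [EE_map (eval sp)]
    simp only [pG, pC, eval_X]
    decide)
  rw [show (aeval v (EE (pG X) (pC X)) : Ω) = (aeval v : MvPolynomial (Fin 37) ℤ →ₐ[ℤ] Ω).toRingHom (EE (pG X) (pC X)) from rfl,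
    EE_map] at h
  simp only [pG, pC, AlgHom.toRingHom_eq_coe, RingHom.coe_coe, aeval_X] at h
  exact h

theorem iI_ne : iI (qq (pG v)) ≠ 0 := by
  have h := nz hv (iI (qq (pG X))) sp (by
    rw [iI_map (eval sp)]
    simp only [qq_map (eval sp), pG, eval_X]
    decide)
  rw [show (aeval v (iI (qq (pG X))) : Ω) = (aeval v : MvPolynomial (Fin 37) ℤ →ₐ[ℤ] Ω).toRingHom (iI (qq (pG X))) from rfl,
    iI_map] at h
  simp only [qq_map] at h
  simp only [pG, pC, AlgHom.toRingHom_eq_coe, RingHom.coe_coe, aeval_X] at h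
  exact h

theorem iJ_ne : iJ (qq (pG v)) ≠ 0 := by
  have h := nz hv (iJ (qq (pG X))) sp (by
    rw [iJ_map (eval sp)]
    simp only [qq_map (eval sp), pG, eval_X]
    decide)
  rw [show (aeval v (iJ (qq (pG X))) : Ω) = (aeval v : MvPolynomial (Fin 37) ℤ →ₐ[ℤ] Ω).toRingHom (iJ (qq (pG X))) from rfl,
    iJ_map] at h
  simp only [qq_map] at h
  simp only [pG, pC, AlgHom.toRingHom_eq_coe, RingHom.coe_coe, aeval_X] at h
  exact h

theorem dis_ne : iJ (qq (pG v)) ^ 2 - 4 * iI (qq (pG v)) ^ 3 ≠ 0 := by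
  have h := nz hv (iJ (qq (pG X)) ^ 2 - 4 * iI (qq (pG X)) ^ 3) sp (by
    rw [map_sub, map_mul, map_pow, map_pow, iJ_map (eval sp), iI_map (eval sp), map_ofNat]
    simp only [qq_map (eval sp), pG, eval_X]
    decide)
  rw [show (aeval v (iJ (qq (pG X)) ^ 2 - 4 * iI (qq (pG X)) ^ 3) : Ω) = (aeval v : MvPolynomial (Fin 37) ℤ →ₐ[ℤ] Ω).toRingHom
      (iJ (qq (pG X)) ^ 2 - 4 * iI (qq (pG X)) ^ 3) from rfl,
    map_sub, map_mul, map_pow, map_pow, iJ_map, iI_map, map_ofNat] at h
  simp only [qq_map] at h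
  simp only [pG, pC, AlgHom.toRingHom_eq_coe, RingHom.coe_coe, aeval_X] at h
  exact h

theorem dl_ne : dl (pU v) ≠ 0 := by
  have h := nz hv (dl (pU X)) sp (by
    rw [dl_map (eval sp)]
    simp only [pU, eval_X]
    decide)
  rw [show (aeval v (dl (pU X)) : Ω) = (aeval v : MvPolynomial (Fin 37) ℤ →ₐ[ℤ] Ω).toRingHom (dl (pU X)) from rfl,
    dl_map] at h
  simp only [pU, AlgHom.toRingHom_eq_coe, RingHom.coe_coe, aeval_X] at h
  exact h

/-- the coefficient of the fourth power of the third variable does not vanish -/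
theorem f2_ne : fu (pU v) (pG v) (pC v) (pR v) ![0, 0, 1, 0] ≠ 0 := by
  have h := nz hv (fu (pU X) (pG X) (pC X) (pR X) ![0, 0, 1, 0]) sp (by
    rw [fu_map (eval sp)]
    unfold fu
    simp only [ul_eq, Fin.sum_univ_four, um, pU, pG, pC, pR, eval_X, Matrix.of_apply, Matrix.cons_val_zero, Matrix.cons_val_one,
      Matrix.cons_val, Matrix.cons_val', map_zero, map_one]
    decide)
  rw [show (aeval v (fu (pU X) (pG X) (pC X) (pR X) ![0, 0, 1, 0]) : Ω) = (aeval v : MvPolynomial (Fin 37) ℤ →ₐ[ℤ] Ω).toRingHom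
    (fu (pU X) (pG X) (pC X) (pR X) ![0, 0, 1, 0]) from rfl, fu_map] at h
  have e : (fun j => (aeval v : MvPolynomial (Fin 37) ℤ →ₐ[ℤ] Ω).toRingHom ((![0, 0, 1, 0] : Fin 4 → MvPolynomial (Fin 37) ℤ) j)) =
      ![0, 0, 1, 0] := by
    funext j
    fin_cases j <;> simp
  rw [e] at h
  simp only [pU, pG, pC, pR, AlgHom.toRingHom_eq_coe, RingHom.coe_coe, aeval_X] at h
  exact h

end

end H77.QS
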