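import Pool.Agent.H77.QS.Inv

/-! # QS.Pnt : the generic point of the generic bitangent plane section -/

namespace H77.QS

open Polynomial

section
variable {Ω : Type} [Field Ω] [CharZero Ω] {v : Fin 37 → Ω} (r : FD v) (y : Ω)

theorem FD.kill {k : Type} [Field k] [Algebra k Ω] (D : Derivation k Ω Ω) (hD : ∀ i, D (pG v i) = 0) :
    D r.d1 = 0 ∧ D r.d2 = 0 ∧ D r.e1 = 0 ∧ D r.e2 = 0 ∧ D r.σ = 0 ∧ D r.a = 0 ∧ D r.b = 0 := by
  have h : ∀ x ∈ ({r.d1, r.d2, r.e1, r.e2, r.σ, r.a, r.b} : Set Ω), D x = 0 := by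
    intro x hx
    refine der_alg D (F := ℚ) (fun y => ?_) (S := Set.range (pG v)) ?_ (r.alg x hx)
    · have : algebraMap ℚ Ω y = (y : Ω) := by simp
      rw [this, Rat.cast_def, div_eq_mul_inv, D.leibniz, D.leibniz_inv, D.map_natCast, D.map_intCast]
      simp
    · rintro _ ⟨i, rfl⟩
      exact hD i
  exact ⟨h _ (by simp), h _ (by simp), h _ (by simp), h _ (by simp), h _ (by simp), h _ (by simp), h _ (by simp)⟩

/-- first coordinate of the direction -/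
def FD.u1 : Ω := v 36 * r.d1 + r.e1

/-- second coordinate of the direction -/
def FD.u2 : Ω := v 36 * r.d2 + r.e2

def FD.q2 : Ω := pG v 0 * r.u1 ^ 2 + pG v 1 * r.u2 ^ 2

def FD.q3 : Ω := pG v 2 * r.u1 * r.u2 ^ 2 + pG v 4 * r.u2 ^ 3

def FD.q4 : Ω := pG v 3 * r.u1 ^ 2 * r.u2 ^ 2 + pG v 5 * r.u1 * r.u2 ^ 3 + pG v 6 * r.u2 ^ 4

/-- the square root of the discriminant of the residual pair -/
def FD.w : Ω := (r.σ * r.d2 * v 36 + r.σ * r.e2) * y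

/-- the coordinates of the point in the normal form -/
def FD.z : Fin 4 → Ω := ![r.w y - r.q3, 2 * r.q2 * r.u1, 2 * r.q2 * r.u2, 0]

/-- the point -/
noncomputable def FD.p : Fin 4 → Ω := (vm (pU v)).mulVec (r.z y)

theorem FD.w2 (hy : y ^ 2 = v 36 ^ 3 - 3 * r.a * v 36 - 2 * r.b) : r.w y ^ 2 = r.q3 ^ 2 - 4 * r.q2 * r.q4 := by
  have h := congrArg (Polynomial.eval (v 36)) r.line
  unfold qv at h
  simp only [eval_add, eval_mul, eval_pow, eval_C, eval_X, eval_sub] at h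
  have h2 : r.u2 ^ 2 * (qq (pG v) 0 * (r.d1 * v 36 + r.e1) ^ 4 + qq (pG v) 1 * (r.d1 * v 36 + r.e1) ^ 3 * (r.d2 * v 36 + r.e2) +
      qq (pG v) 2 * (r.d1 * v 36 + r.e1) ^ 2 * (r.d2 * v 36 + r.e2) ^ 2 +
      qq (pG v) 3 * (r.d1 * v 36 + r.e1) * (r.d2 * v 36 + r.e2) ^ 3 + qq (pG v) 4 * (r.d2 * v 36 + r.e2) ^ 4) =
      r.q3 ^ 2 - 4 * r.q2 * r.q4 := by
    unfold FD.q3 FD.q2 FD.q4
    have e1 : r.d1 * v 36 + r.e1 = r.u1 := by
      unfold FD.u1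
      ring
    have e2 : r.d2 * v 36 + r.e2 = r.u2 := by
      unfold FD.u2
      ring
    rw [e1, e2]
    unfold qq
    simp only [Matrix.cons_val_zero, Matrix.cons_val_one, Matrix.cons_val]
    ring
  rw [← h2, h]
  unfold FD.w
  rw [mul_pow, hy]
  unfold FD.u2
  ring

/-- the coordinates of the point are the given ones -/
theorem FD.up (hdl : dl (pU v) ≠ 0) (i : Fin 4) : ul (pU v) i (r.p y) = r.z y i := by
  unfold ul FD.p
  rw [Matrix.mulVec_mulVec, um_vm hdl, Matrix.one_mulVec]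

theorem FD.ev_z (c s : Fin 10 → Ω) (hy : y ^ 2 = v 36 ^ 3 - 3 * r.a * v 36 - 2 * r.b) :
    fn (pG v) c s (r.z y 0) (r.z y 1) (r.z y 2) (r.z y 3) = 0 := by
  have h := r.w2 y hy
  unfold fn FD.z
  simp only [Matrix.cons_val_zero, Matrix.cons_val_one, Matrix.cons_val]
  have e : ∀ A B Q2 Q3 Q4 W : Ω, Q2 = pG v 0 * A ^ 2 + pG v 1 * B ^ 2 → Q3 = pG v 2 * A * B ^ 2 + pG v 4 * B ^ 3 →
      Q4 = pG v 3 * A ^ 2 * B ^ 2 + pG v 5 * A * B ^ 3 + pG v 6 * B ^ 4 → W ^ 2 = Q3 ^ 2 - 4 * Q2 * Q4 →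
      pG v 0 * (W - Q3) ^ 2 * (2 * Q2 * A) ^ 2 + (2 * Q2 * B) ^ 2 * (pG v 1 * (W - Q3) ^ 2 + pG v 2 * (W - Q3) * (2 * Q2 * A) +
        pG v 3 * (2 * Q2 * A) ^ 2) + (2 * Q2 * B) ^ 3 * (pG v 4 * (W - Q3) + pG v 5 * (2 * Q2 * A)) + pG v 6 * (2 * Q2 * B) ^ 4 = 0 := by
    intro A B Q2 Q3 Q4 W h1 h2 h3 h4
    linear_combination (4 * Q2 ^ 3 : Ω) * h4 - (4 * Q2 ^ 2 * (W - Q3) ^ 2) * h1 - (4 * Q2 ^ 2 * (W - Q3) * 2 * Q2) * h2 -
      (4 * Q2 ^ 2 * 4 * Q2 ^ 2) * h3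
  have := e r.u1 r.u2 r.q2 r.q3 r.q4 (r.w y) rfl rfl rfl h
  linear_combination this

end

end H77.QS
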