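import Pool.Agent.H77.QS.Leib

/-! # QS.Poly : the form as a polynomial, its values and derivatives -/

namespace H77.QS

open MvPolynomial

section map
variable {R S : Type} [CommRing R] [CommRing S] (φ : R →+* S)

theorem fn_map (g : Fin 7 → R) (c r : Fin 10 → R) (X Y Z W : R) :
    φ (fn g c r X Y Z W) = fn (fun i => φ (g i)) (fun i => φ (c i)) (fun i => φ (r i)) (φ X) (φ Y) (φ Z) (φ W) := by
  unfold fn
  simp only [map_add, map_mul, map_pow]

theorem fnX_map (g : Fin 7 → R) (c r : Fin 10 → R) (X Y Z W : R) :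
    φ (fnX g c r X Y Z W) = fnX (fun i => φ (g i)) (fun i => φ (c i)) (fun i => φ (r i)) (φ X) (φ Y) (φ Z) (φ W) := by
  unfold fnX
  simp only [map_add, map_mul, map_pow, map_ofNat]

theorem fnY_map (g : Fin 7 → R) (c r : Fin 10 → R) (X Y Z W : R) :
    φ (fnY g c r X Y Z W) = fnY (fun i => φ (g i)) (fun i => φ (c i)) (fun i => φ (r i)) (φ X) (φ Y) (φ Z) (φ W) := by
  unfold fnY
  simp only [map_add, map_mul, map_pow, map_ofNat]

theorem fnZ_map (g : Fin 7 → R) (c r : Fin 10 → R) (X Y Z W : R) :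
    φ (fnZ g c r X Y Z W) = fnZ (fun i => φ (g i)) (fun i => φ (c i)) (fun i => φ (r i)) (φ X) (φ Y) (φ Z) (φ W) := by
  unfold fnZ
  simp only [map_add, map_mul, map_pow, map_ofNat]

theorem fnW_map (g : Fin 7 → R) (c r : Fin 10 → R) (X Y Z W : R) :
    φ (fnW g c r X Y Z W) = fnW (fun i => φ (g i)) (fun i => φ (c i)) (fun i => φ (r i)) (φ X) (φ Y) (φ Z) (φ W) := by
  unfold fnW
  simp only [map_add, map_mul, map_pow, map_ofNat]

theorem um_map (u : Fin 9 → R) (i j : Fin 4) : φ (um u i j) = um (fun k => φ (u k)) i j := by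
  unfold um
  fin_cases i <;> fin_cases j <;> simp

theorem ul_eq (u : Fin 9 → R) (i : Fin 4) (w : Fin 4 → R) : ul u i w = ∑ j, um u i j * w j := rfl

theorem ul_map (u : Fin 9 → R) (i : Fin 4) (w : Fin 4 → R) :
    φ (ul u i w) = ul (fun k => φ (u k)) i (fun j => φ (w j)) := by
  rw [ul_eq, ul_eq, map_sum]
  exact Finset.sum_congr rfl fun j _ => by rw [map_mul, um_map]

theorem fu_map (u : Fin 9 → R) (g : Fin 7 → R) (c r : Fin 10 → R) (w : Fin 4 → R) :
    φ (fu u g c r w) = fu (fun k => φ (u k)) (fun i => φ (g i)) (fun i => φ (c i)) (fun i => φ (r i)) (fun j => φ (w j)) := by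
  unfold fu
  rw [fn_map, ul_map, ul_map, ul_map, ul_map]

end map

section
variable {R : Type} [CommRing R]

/-- the value of the form at a vector of an algebra -/
theorem aeval_FF {A : Type} [CommRing A] [Algebra R A] (u : Fin 9 → R) (g : Fin 7 → R) (c r : Fin 10 → R) (w : Fin 4 → A) :
    aeval w (FF u g c r) = fu (fun k => algebraMap R A (u k)) (fun i => algebraMap R A (g i)) (fun i => algebraMap R A (c i))
      (fun i => algebraMap R A (r i)) w := by
  have h := fu_map (aeval (R := R) w : MvPolynomial (Fin 4) R →ₐ[R] A).toRingHom (fun i => C (u i)) (fun i => C (g i)) (fun i => C (c i))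
    (fun i => C (r i)) (fun i => (X i : MvPolynomial (Fin 4) R))
  unfold FF
  refine Eq.trans h ?_
  simp only [AlgHom.toRingHom_eq_coe, RingHom.coe_coe, algHom_C, aeval_X]

theorem eval_FF (u : Fin 9 → R) (g : Fin 7 → R) (c r : Fin 10 → R) (w : Fin 4 → R) :
    eval w (FF u g c r) = fu u g c r w := by
  have := aeval_FF (A := R) u g c r w
  rw [← MvPolynomial.aeval_eq_eval]
  exact this

/-- the partial derivatives of the form -/
theorem pderiv_FF (u : Fin 9 → R) (g : Fin 7 → R) (c r : Fin 10 → R) (w : Fin 4 → R) (j : Fin 4) :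
    eval w (pderiv j (FF u g c r)) =
      fnX g c r (ul u 0 w) (ul u 1 w) (ul u 2 w) (ul u 3 w) * um u 0 j +
      fnY g c r (ul u 0 w) (ul u 1 w) (ul u 2 w) (ul u 3 w) * um u 1 j +
      fnZ g c r (ul u 0 w) (ul u 1 w) (ul u 2 w) (ul u 3 w) * um u 2 j +
      fnW g c r (ul u 0 w) (ul u 1 w) (ul u 2 w) (ul u 3 w) * um u 3 j := by
  have hl : ∀ i, pderiv j (ul (fun k => C (u k)) i (fun i => (X i : MvPolynomial (Fin 4) R))) = C (um u i j) := by
    intro i
    rw [ul_eq, map_sum, Finset.sum_eq_single j]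
    · rw [← um_map C u i j, pderiv_C_mul, pderiv_X_self, C_mul']
      simp [Algebra.smul_def]
    · intro b _ hb
      rw [← um_map C u i b, pderiv_C_mul, pderiv_X_of_ne hb]
      exact mul_zero _
    · simp
  unfold FF fu
  rw [leib, hl, hl, hl, hl]
  simp only [pderiv_C]
  have h0 : fn (fun _ => (0 : MvPolynomial (Fin 4) R)) (fun _ => 0) (fun _ => 0) (ul (fun i => C (u i)) 0 fun i => X i)
    (ul (fun i => C (u i)) 1 fun i => X i) (ul (fun i => C (u i)) 2 fun i => X i) (ul (fun i => C (u i)) 3 fun i => X i) = 0 := by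
    unfold fn
    ring
  rw [h0]
  simp only [map_add, map_mul, zero_add, fnX_map (eval w), fnY_map (eval w), fnZ_map (eval w), fnW_map (eval w), ul_map (eval w), eval_C, eval_X]

end

end H77.QS
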