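import Pool.Agent.H77.QS.Der

/-! # QS.Trd : counting of transcendence degrees; the embedding of `U4` -/

namespace H77.QS

open MvPolynomial H8.QS

section
variable {Ω : Type} [Field Ω] [CharZero Ω] {v : Fin 37 → Ω}

/-- a field over which all derivations vanish on the parameters: everything is algebraic -/
theorem alg_of_der (hv : IsTranscendenceBasis ℚ v) {F : Type} [Field F] [Algebra F Ω]
    (h : ∀ D : Derivation F Ω Ω, ∀ i, D (v i) = 0) : Algebra.IsAlgebraic F Ω := by
  have hc : CharZero F := (algebraMap F Ω).charZero_iff (algebraMap F Ω).injective |>.2 inferInstance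
  exact ⟨fun x => H50.Z.isAlgebraic_of_derivation x fun D => der_vv hv D (h D) x⟩

open scoped IntermediateField.algebraAdjoinAdjoin in
theorem alg_adj {F : Type} [Field F] [Algebra F Ω] (S : Set Ω) (h : Algebra.IsAlgebraic (IntermediateField.adjoin F S) Ω) :
    Algebra.IsAlgebraic (Algebra.adjoin F S) Ω := by
  have h1 : Algebra.IsAlgebraic (Algebra.adjoin F S) (IntermediateField.adjoin F S) :=
    IsLocalization.isAlgebraic _ (nonZeroDivisors _)
  exact Algebra.IsAlgebraic.trans (Algebra.adjoin F S) (IntermediateField.adjoin F S) Ω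

theorem basis_of_der (hv : IsTranscendenceBasis ℚ v) {ι : Type} [Fintype ι] (y : ι → Ω) (hc : Fintype.card ι ≤ 37)
    (h : ∀ D : Derivation (IntermediateField.adjoin ℚ (Set.range y)) Ω Ω, ∀ i, D (v i) = 0) : IsTranscendenceBasis ℚ y := by
  have h1 := alg_adj (Set.range y) (alg_of_der hv h)
  refine Algebra.IsAlgebraic.isTranscendenceBasis_of_le_trdeg_of_finite ℚ y ?_
  rw [← hv.cardinalMk_eq_trdeg, Cardinal.mk_fintype, Cardinal.mk_fintype, Fintype.card_fin]
  exact_mod_cast hc

theorem emb [IsAlgClosed Ω] (a : Mo4 → Ω) (p : Fin 2 → Ω) (h : AlgebraicIndependent ℚ (Sum.elim a p)) :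
    ∃ (_ : Algebra U4 Ω), (∀ m, algebraMap U4 Ω (toU (X m)) = a m) ∧ AlgebraicIndependent U4 p := by
  have hZ : AlgebraicIndependent ℤ (Sum.elim a p) := h.restrictScalars Int.cast_injective
  have hZ' : AlgebraicIndependent ℤ (Sum.elim p a) := by
    have := hZ.comp Sum.swap Sum.swap_leftInverse.injective
    convert this using 1
    funext x
    cases x <;> rfl
  obtain ⟨ha, hp⟩ := (AlgebraicIndependent.sumElim_iff).1 hZ'
  -- the embedding
  let f0 : MvPolynomial Mo4 ℤ →+* Ω := (aeval a : MvPolynomial Mo4 ℤ →ₐ[ℤ] Ω).toRingHom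
  have hf0 : Function.Injective f0 := ha
  let f1 : FractionRing (MvPolynomial Mo4 ℤ) →+* Ω := IsFractionRing.lift hf0
  let _ : Algebra (FractionRing (MvPolynomial Mo4 ℤ)) Ω := f1.toAlgebra
  let f2 : U4 →ₐ[FractionRing (MvPolynomial Mo4 ℤ)] Ω := IsAlgClosed.lift
  let _ : Algebra U4 Ω := f2.toRingHom.toAlgebra
  have hf2 : ∀ P, algebraMap U4 Ω (toU P) = f0 P := by
    intro P
    change f2 (algebraMap (MvPolynomial Mo4 ℤ) U4 P) = _
    rw [IsScalarTower.algebraMap_apply (MvPolynomial Mo4 ℤ) (FractionRing (MvPolynomial Mo4 ℤ)) U4, AlgHom.commutes]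
    exact IsFractionRing.lift_algebraMap hf0 P
  refine ⟨f2.toRingHom.toAlgebra, fun m => ?_, ?_⟩
  · rw [hf2]
    exact aeval_X _ _
  · let _ : Algebra (MvPolynomial Mo4 ℤ) Ω := f0.toAlgebra
    have htow : IsScalarTower (MvPolynomial Mo4 ℤ) U4 Ω := IsScalarTower.of_algebraMap_eq fun P => (hf2 P).symm
    have h0 : Algebra.IsAlgebraic (MvPolynomial Mo4 ℤ) (FractionRing (MvPolynomial Mo4 ℤ)) :=
      IsLocalization.isAlgebraic _ (nonZeroDivisors _)
    have halg : Algebra.IsAlgebraic (MvPolynomial Mo4 ℤ) U4 :=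
      Algebra.IsAlgebraic.trans (MvPolynomial Mo4 ℤ) (FractionRing (MvPolynomial Mo4 ℤ)) U4
    have hp' : AlgebraicIndependent (MvPolynomial Mo4 ℤ) p := by
      have e : MvPolynomial Mo4 ℤ ≃ₐ[ℤ] Algebra.adjoin ℤ (Set.range a) := ha.aevalEquiv
      refine AlgebraicIndependent.of_ringHom_of_comp_eq (S := Algebra.adjoin ℤ (Set.range a)) (B := Ω)
        (ha.aevalEquiv : MvPolynomial Mo4 ℤ →+* Algebra.adjoin ℤ (Set.range a)) (RingHom.id Ω) hp ha.aevalEquiv.injective ?_
      ext x
      · simp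
      · change ((ha.aevalEquiv (X x) : Algebra.adjoin ℤ (Set.range a)) : Ω) = f0 (X x)
        have := ha.algebraMap_aevalEquiv (X x)
        exact this
    exact hp'.extendScalars U4

end

end H77.QS
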